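import Mathlib

/-!
Complex irreducible characters of a finite group: finiteness, orthogonality, completeness.
-/

namespace Pool.Agent.Lib.MP_1f99fc_al

open Representation

/-- The set of irreducible complex characters of the group `G`, as functions `G → ℂ`. -/
def Irr (G : Type) [Group G] : Set (G → ℂ) :=
  {χ | ∃ (V : Type) (_ : AddCommGroup V) (_ : Module ℂ V) (_ : FiniteDimensional ℂ V)
    (ρ : Representation ℂ G V), ρ.IsIrreducible ∧ ρ.character = χ}

section

variable {G : Type} [Group G] [Fintype G]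

/-- The bilinear form `∑ g, f g * h g⁻¹`. -/
noncomputable def pair (f h : G → ℂ) : ℂ := ∑ g : G, f g * h g⁻¹

lemma pair_comm (f h : G → ℂ) : pair f h = pair h f := by
  unfold pair
  rw [← Equiv.sum_comp (Equiv.inv G)]
  apply Finset.sum_congr rfl
  intro g _
  simp [mul_comm]

lemma pair_self_of_mem {χ : G → ℂ} (h : χ ∈ Irr G) : pair χ χ = (Nat.card G : ℂ) := by
  classical
  obtain ⟨V, _, _, _, ρ, hρ, rfl⟩ := h
  have hG : (Nat.card G : ℂ) ≠ 0 := by
    exact_mod_cast Nat.card_pos.ne'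
  have : Invertible (Nat.card G : ℂ) := invertibleOfNonzero hG
  have h1 := char_orthonormal ρ ρ
  rw [if_pos ⟨Representation.Equiv.refl ρ⟩] at h1
  unfold pair
  field_simp at h1
  exact h1

lemma pair_of_ne {χ ψ : G → ℂ} (h : χ ∈ Irr G) (h' : ψ ∈ Irr G) (hne : χ ≠ ψ) :
    pair χ ψ = 0 := by
  classical
  obtain ⟨V, _, _, _, ρ, hρ, rfl⟩ := h
  obtain ⟨W, _, _, _, σ, hσ, rfl⟩ := h'
  have hG : (Nat.card G : ℂ) ≠ 0 := by
    exact_mod_cast Nat.card_pos.ne'
  have : Invertible (Nat.card G : ℂ) := invertibleOfNonzero hG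
  have h1 := char_orthonormal ρ σ
  rw [if_neg] at h1
  · unfold pair
    have := mul_eq_zero.mp h1
    rcases this with h | h
    · exact absurd h (inv_ne_zero hG)
    · exact h
  · rintro ⟨e⟩
    exact hne (char_iso e).symm

lemma pair_sum_left {ι : Type*} (s : Finset ι) (f : ι → G → ℂ) (h : G → ℂ) :
    pair (∑ i ∈ s, f i) h = ∑ i ∈ s, pair (f i) h := by
  unfold pair
  rw [Finset.sum_comm]
  apply Finset.sum_congr rfl
  intro g _
  rw [Finset.sum_apply, Finset.sum_mul]

lemma pair_smul_left (c : ℂ) (f h : G → ℂ) : pair (c • f) h = c * pair f h := by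
  unfold pair
  rw [Finset.mul_sum]
  apply Finset.sum_congr rfl
  intro g _
  simp [mul_assoc]

lemma pair_sub_left (f f' h : G → ℂ) : pair (f - f') h = pair f h - pair f' h := by
  unfold pair
  rw [← Finset.sum_sub_distrib]
  apply Finset.sum_congr rfl
  intro g _
  simp [sub_mul]

lemma linearIndependent_irr : LinearIndependent ℂ (fun χ : Irr G => (χ : G → ℂ)) := by
  classical
  rw [linearIndependent_iff']
  intro s c hc χ hχ
  have h1 : pair (∑ i ∈ s, c i • (i : G → ℂ)) χ = 0 := by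
    rw [hc]; simp [pair]
  rw [pair_sum_left] at h1
  rw [Finset.sum_eq_single χ] at h1
  · rw [pair_smul_left, pair_self_of_mem χ.2] at h1
    have hG : (Nat.card G : ℂ) ≠ 0 := by
      exact_mod_cast Nat.card_pos.ne'
    exact (mul_eq_zero.mp h1).resolve_right hG
  · intro b _ hb
    rw [pair_smul_left, pair_of_ne b.2 χ.2 (fun h => hb (Subtype.ext h)), mul_zero]
  · intro h
    exact absurd hχ h

lemma finite_irr : (Irr G).Finite := by
  have := (linearIndependent_irr (G := G)).finite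
  exact Set.toFinite _

/-- The operator `∑ g, D g • ρ g⁻¹`. -/
noncomputable def op {V : Type*} [AddCommGroup V] [Module ℂ V] (ρ : Representation ℂ G V)
    (D : G → ℂ) : V →ₗ[ℂ] V := ∑ g : G, D g • ρ g⁻¹

lemma trace_op {V : Type*} [AddCommGroup V] [Module ℂ V] (ρ : Representation ℂ G V)
    (D : G → ℂ) : LinearMap.trace ℂ V (op ρ D) = pair D ρ.character := by
  unfold op pair Representation.character
  rw [map_sum]
  apply Finset.sum_congr rfl
  intro g _
  simp

lemma op_comm {V : Type*} [AddCommGroup V] [Module ℂ V] (ρ : Representation ℂ G V)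
    {D : G → ℂ} (hD : ∀ g h : G, D (h * g * h⁻¹) = D g) (h : G) :
    op ρ D ∘ₗ ρ h = ρ h ∘ₗ op ρ D := by
  unfold op
  rw [← Module.End.mul_eq_comp, ← Module.End.mul_eq_comp, Finset.sum_mul, Finset.mul_sum]
  rw [← Equiv.sum_comp (MulAut.conj h).toEquiv]
  apply Finset.sum_congr rfl
  intro g _
  simp only [MulEquiv.toEquiv_eq_coe, EquivLike.coe_coe, MulAut.conj_apply, hD]
  rw [smul_mul_assoc, mul_smul_comm]
  congr 1
  rw [← map_mul, ← map_mul]
  congr 1
  group

/-- Schur: on an irreducible representation `op ρ D` is a scalar, for a class function `D`. -/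
lemma exists_op_eq_smul {V : Type*} [AddCommGroup V] [Module ℂ V] [FiniteDimensional ℂ V]
    (ρ : Representation ℂ G V) [ρ.IsIrreducible]
    {D : G → ℂ} (hD : ∀ g h : G, D (h * g * h⁻¹) = D g) :
    ∃ c : ℂ, op ρ D = c • LinearMap.id := by
  let T : IntertwiningMap ρ ρ := ⟨op ρ D, op_comm ρ hD⟩
  obtain ⟨c, hc⟩ :=
    (IsIrreducible.algebraMap_intertwiningMap_bijective_of_isAlgClosed (ρ := ρ)).2 T
  refine ⟨c, ?_⟩
  have h1 : (algebraMap ℂ (IntertwiningMap ρ ρ) c).toLinearMap = T.toLinearMap := by rw [hc]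
  have h2 : T.toLinearMap = op ρ D := rfl
  rw [← h2, ← h1]
  ext v
  simp [Algebra.algebraMap_eq_smul_one]

omit [Fintype G] in
lemma nontrivial_of_irreducible {V : Type*} [AddCommGroup V] [Module ℂ V]
    (ρ : Representation ℂ G V) [ρ.IsIrreducible] : Nontrivial V := by
  by_contra hcon
  rw [not_nontrivial_iff_subsingleton] at hcon
  have h3 : (⊥ : Subrepresentation ρ) ≠ ⊤ := bot_ne_top
  apply h3
  ext x
  have : x = 0 := Subsingleton.elim _ _
  subst this
  constructor <;> intro _ <;> exact Submodule.zero_mem _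

omit [Fintype G] in
lemma finrank_ne_zero {V : Type*} [AddCommGroup V] [Module ℂ V] [FiniteDimensional ℂ V]
    (ρ : Representation ℂ G V) [ρ.IsIrreducible] : (Module.finrank ℂ V : ℂ) ≠ 0 := by
  have := nontrivial_of_irreducible ρ
  exact_mod_cast (Module.finrank_pos (R := ℂ) (M := V)).ne'

lemma op_eq_zero {V : Type*} [AddCommGroup V] [Module ℂ V] [FiniteDimensional ℂ V]
    (ρ : Representation ℂ G V) [ρ.IsIrreducible]
    {D : G → ℂ} (hD : ∀ g h : G, D (h * g * h⁻¹) = D g) (h0 : pair D ρ.character = 0) :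
    op ρ D = 0 := by
  obtain ⟨c, hc⟩ := exists_op_eq_smul ρ hD
  have h1 := trace_op ρ D
  rw [h0, hc, map_smul, LinearMap.trace_id, smul_eq_mul] at h1
  have h3 : c = 0 := (mul_eq_zero.mp h1).resolve_right (finrank_ne_zero ρ)
  rw [hc, h3, zero_smul]

/-- The element `∑ g, D g • g⁻¹` of the group algebra. -/
noncomputable def zEl (D : G → ℂ) : MonoidAlgebra ℂ G :=
  ∑ g : G, MonoidAlgebra.single g⁻¹ (D g)

set_option backward.isDefEq.respectTransparency false in
lemma zEl_smul_eq_zero {D : G → ℂ} (hD : ∀ g h : G, D (h * g * h⁻¹) = D g)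
    (h0 : ∀ χ ∈ Irr G, pair D χ = 0) (M : Type) [AddCommGroup M] [Module (MonoidAlgebra ℂ G) M]
    [IsSimpleModule (MonoidAlgebra ℂ G) M] (m : M) : zEl D • m = 0 := by
  classical
  have hirr : (ofModule (k := ℂ) (G := G) M).IsIrreducible :=
    (isSimpleModule_iff_irreducible_ofModule _).mp inferInstance
  have hM : Module.Finite (MonoidAlgebra ℂ G) M := inferInstance
  have hfin0 : Module.Finite ℂ (MonoidAlgebra ℂ G) := inferInstance
  have hfin : FiniteDimensional ℂ (RestrictScalars ℂ (MonoidAlgebra ℂ G) M) := by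
    letI : Module (MonoidAlgebra ℂ G) (RestrictScalars ℂ (MonoidAlgebra ℂ G) M) :=
      RestrictScalars.moduleOrig ℂ _ M
    have : IsScalarTower ℂ (MonoidAlgebra ℂ G) (RestrictScalars ℂ (MonoidAlgebra ℂ G) M) :=
      RestrictScalars.isScalarTower ℂ _ M
    have hM' : Module.Finite (MonoidAlgebra ℂ G) (RestrictScalars ℂ (MonoidAlgebra ℂ G) M) := hM
    exact Module.Finite.trans (MonoidAlgebra ℂ G) _
  have hop := op_eq_zero (ofModule (k := ℂ) (G := G) M) hD
    (h0 _ ⟨_, _, _, hfin, _, hirr, rfl⟩)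
  have h1 : (ofModule (k := ℂ) (G := G) M).asAlgebraHom (zEl D) =
      op (ofModule (k := ℂ) (G := G) M) D := by
    simp only [zEl, op, map_sum, asAlgebraHom_single]
  have h2 := ofModule_asAlgebraHom_apply_apply (k := ℂ) (G := G)
    (M := M) (zEl D)
    ((RestrictScalars.addEquiv ℂ (MonoidAlgebra ℂ G) _).symm m)
  rw [h1, hop, LinearMap.zero_apply] at h2
  have h3 := congrArg (RestrictScalars.addEquiv ℂ (MonoidAlgebra ℂ G) _) h2
  rw [map_zero, AddEquiv.apply_symm_apply, AddEquiv.apply_symm_apply] at h3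
  exact h3.symm

/-- A class function orthogonal to all irreducible characters is zero. -/
lemma eq_zero_of_pair_eq_zero {D : G → ℂ} (hD : ∀ g h : G, D (h * g * h⁻¹) = D g)
    (h0 : ∀ χ ∈ Irr G, pair D χ = 0) : D = 0 := by
  classical
  have hG : (Nat.card G : ℂ) ≠ 0 := by
    exact_mod_cast Nat.card_pos.ne'
  have : NeZero (Nat.card G : ℂ) := ⟨hG⟩
  have hz : zEl D ∈ Ring.jacobson (MonoidAlgebra ℂ G) := by
    rw [Ring.jacobson, Module.jacobson, Submodule.mem_sInf]
    intro I hI
    have hs : IsSimpleModule (MonoidAlgebra ℂ G) (MonoidAlgebra ℂ G ⧸ I) :=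
      isSimpleModule_iff_isCoatom.mpr hI
    have h3 := zEl_smul_eq_zero hD h0 (MonoidAlgebra ℂ G ⧸ I) (Submodule.Quotient.mk 1)
    rw [← Submodule.Quotient.mk_smul, smul_eq_mul, mul_one] at h3
    exact (Submodule.Quotient.mk_eq_zero I).mp h3
  have hz0 : zEl D = 0 := by
    rw [IsSemisimpleRing.jacobson_eq_bot] at hz
    exact (Submodule.mem_bot _).mp hz
  ext g
  have h1 : (zEl D).coeff g⁻¹ = D g := by
    simp only [zEl, MonoidAlgebra.coeff_sum, MonoidAlgebra.coeff_single, Finsupp.finsetSum_apply,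
      Finsupp.single_apply, inv_inj]
    simp
  rw [← h1, hz0]
  rfl

end

end Pool.Agent.Lib.MP_1f99fc_al
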