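import Mathlib
import Pool.Agent.Lib.MP_1f99fc_al.CharTheory

/-!
Decomposition of the irreducible characters along an orthogonal family of central functions.
-/

namespace Pool.Agent.Lib.MP_1f99fc_al

open Representation

/-- For a set `X` of characters, `sigma X g = ∑ χ ∈ X, χ 1 * χ g`. -/
noncomputable def sigma {G : Type} [Group G] (X : Set (G → ℂ)) (g : G) : ℂ :=
  ∑ᶠ χ ∈ X, χ 1 * χ g

section

variable {G : Type} [Group G] [Fintype G]

lemma op_mul_op {V : Type*} [AddCommGroup V] [Module ℂ V] (ρ : Representation ℂ G V)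
    (s t : G → ℂ) : op ρ s * op ρ t = op ρ (fun g => ∑ b : G, t b * s (b⁻¹ * g)) := by
  unfold op
  rw [Finset.sum_mul_sum]
  simp only [Finset.sum_smul]
  rw [Finset.sum_comm, Finset.sum_comm (f := fun g b => (t b * s (b⁻¹ * g)) • ρ g⁻¹)]
  apply Finset.sum_congr rfl
  intro b _
  rw [← Equiv.sum_comp (Equiv.mulLeft b) (fun g => (t b * s (b⁻¹ * g)) • ρ g⁻¹)]
  apply Finset.sum_congr rfl
  intro a _
  rw [smul_mul_smul_comm, ← map_mul, mul_comm (s a)]
  simp

lemma op_delta [DecidableEq G] {V : Type*} [AddCommGroup V] [Module ℂ V]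
    (ρ : Representation ℂ G V) (c : ℂ) :
    op ρ (fun g => if g = 1 then c else 0) = c • LinearMap.id := by
  unfold op
  rw [Finset.sum_eq_single 1]
  · simp only [if_true, inv_one, map_one]
    rfl
  · intro b _ hb
    simp [hb]
  · intro h
    exact absurd (Finset.mem_univ _) h

lemma op_sum {ι : Type*} (s : Finset ι) (f : ι → G → ℂ) {V : Type*} [AddCommGroup V]
    [Module ℂ V] (ρ : Representation ℂ G V) :
    op ρ (fun g => ∑ i ∈ s, f i g) = ∑ i ∈ s, op ρ (f i) := by
  unfold op
  rw [Finset.sum_comm]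
  apply Finset.sum_congr rfl
  intro g _
  rw [Finset.sum_smul]

variable {ι : Type} [Fintype ι] [DecidableEq ι] [DecidableEq G]

/-- An orthogonal system of central functions adding up to `|G|` times the delta function. -/
structure CentralSystem (s : ι → G → ℂ) : Prop where
  cl : ∀ i g h, s i (h * g * h⁻¹) = s i g
  conv : ∀ i j g, ∑ b : G, s i b * s j (b⁻¹ * g) =
    if i = j then (Nat.card G : ℂ) * s i g else 0
  sum : ∀ g, ∑ i, s i g = if g = 1 then (Nat.card G : ℂ) else 0
  ne : ∀ i, s i ≠ 0

/-- The set of irreducible characters which are not orthogonal to `s`. -/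
def blk (s : G → ℂ) : Set (G → ℂ) := {χ | χ ∈ Irr G ∧ pair s χ ≠ 0}

variable {s : ι → G → ℂ}

lemma CentralSystem.exists_index (hs : CentralSystem s) {χ : G → ℂ} (hχ : χ ∈ Irr G) :
    ∃ i, pair (s i) χ = (Nat.card G : ℂ) * χ 1 ∧ ∀ j, j ≠ i → pair (s j) χ = 0 := by
  obtain ⟨V, _, _, _, ρ, hρ, rfl⟩ := hχ
  have hG : (Nat.card G : ℂ) ≠ 0 := by
    exact_mod_cast Nat.card_pos.ne'
  choose c hc using fun i => exists_op_eq_smul ρ (hs.cl i)
  have hnt := nontrivial_of_irreducible ρ
  obtain ⟨v, hv⟩ := exists_ne (0 : V)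
  have hmul : ∀ i j, c j * c i = if i = j then (Nat.card G : ℂ) * c i else 0 := by
    intro i j
    have h1 := op_mul_op ρ (s j) (s i)
    have h2 : (fun g => ∑ b : G, s i b * s j (b⁻¹ * g)) =
        fun g => if i = j then (Nat.card G : ℂ) * s i g else 0 := by
      ext g; exact hs.conv i j g
    rw [h2, hc, hc] at h1
    have h3 := LinearMap.congr_fun h1 v
    by_cases hij : i = j
    · subst hij
      simp only [if_true] at h3 ⊢
      have h4 : op ρ (fun g => (Nat.card G : ℂ) * s i g) = (Nat.card G : ℂ) • op ρ (s i) := by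
        unfold op
        rw [Finset.smul_sum]
        apply Finset.sum_congr rfl
        intro g _
        rw [mul_smul]
      rw [h4, hc] at h3
      simp only [Module.End.mul_apply, LinearMap.smul_apply, LinearMap.id_apply, smul_smul] at h3
      exact smul_left_injective ℂ hv h3
    · simp only [hij, if_false] at h3 ⊢
      have h4 : op ρ (fun _ : G => (0 : ℂ)) = 0 := by
        unfold op
        simp
      rw [h4] at h3
      simp only [Module.End.mul_apply, LinearMap.smul_apply, LinearMap.id_apply, smul_smul,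
        LinearMap.zero_apply] at h3
      exact (smul_eq_zero.mp h3).resolve_right hv
  have hsum : ∑ i, c i = (Nat.card G : ℂ) := by
    have h1 := op_sum Finset.univ s ρ
    have h2 : (fun g => ∑ i, s i g) = fun g => if g = 1 then (Nat.card G : ℂ) else 0 := by
      ext g; exact hs.sum g
    rw [h2, op_delta] at h1
    simp only [hc] at h1
    rw [← Finset.sum_smul] at h1
    have h3 := LinearMap.congr_fun h1 v
    simp only [LinearMap.smul_apply, LinearMap.id_apply] at h3
    exact (smul_left_injective ℂ hv h3).symm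
  have hpair : ∀ i, pair (s i) ρ.character = c i * ρ.character 1 := by
    intro i
    rw [← trace_op, hc, map_smul, LinearMap.trace_id, smul_eq_mul, char_one]
  obtain ⟨i, hi⟩ : ∃ i, c i ≠ 0 := by
    by_contra hcon
    push Not at hcon
    rw [Finset.sum_eq_zero (fun i _ => hcon i)] at hsum
    exact hG hsum.symm
  refine ⟨i, ?_, ?_⟩
  · have h1 := hmul i i
    rw [if_pos rfl] at h1
    rw [hpair, mul_right_cancel₀ hi h1]
  · intro j hj
    have h1 := hmul i j
    rw [if_neg (Ne.symm hj)] at h1
    rw [hpair, (mul_eq_zero.mp h1).resolve_right hi, zero_mul]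

omit [Fintype G] [DecidableEq G] in
lemma char_one_ne_zero {χ : G → ℂ} (hχ : χ ∈ Irr G) : χ 1 ≠ 0 := by
  obtain ⟨V, _, _, _, ρ, hρ, rfl⟩ := hχ
  rw [char_one]
  exact finrank_ne_zero ρ

omit [Fintype G] [DecidableEq G] in
lemma class_of_mem {χ : G → ℂ} (hχ : χ ∈ Irr G) (g h : G) : χ (h * g * h⁻¹) = χ g := by
  obtain ⟨V, _, _, _, ρ, hρ, rfl⟩ := hχ
  exact char_conj ρ g h

lemma CentralSystem.existsUnique_blk (hs : CentralSystem s) {χ : G → ℂ} (hχ : χ ∈ Irr G) :
    ∃! i, χ ∈ blk (s i) := by
  obtain ⟨i, h1, h2⟩ := hs.exists_index hχ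
  have hG : (Nat.card G : ℂ) ≠ 0 := by
    exact_mod_cast Nat.card_pos.ne'
  refine ⟨i, ⟨hχ, ?_⟩, ?_⟩
  · rw [h1]
    exact mul_ne_zero hG (char_one_ne_zero hχ)
  · intro j hj
    by_contra hcon
    exact hj.2 (h2 j hcon)

lemma CentralSystem.pair_of_mem (hs : CentralSystem s) {χ : G → ℂ} {i : ι}
    (h : χ ∈ blk (s i)) : pair (s i) χ = (Nat.card G : ℂ) * χ 1 := by
  obtain ⟨j, h1, h2⟩ := hs.exists_index h.1
  have : i = j := by
    by_contra hcon
    exact h.2 (h2 i hcon)
  rw [this, h1]

omit [DecidableEq G] in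
lemma finite_blk (t : G → ℂ) : (blk t).Finite := finite_irr.subset fun _ h => h.1

omit [Fintype G] [DecidableEq G] in
lemma sigma_eq_sum {X : Set (G → ℂ)} (hX : X.Finite) (g : G) :
    sigma X g = ∑ χ ∈ hX.toFinset, χ 1 * χ g := by
  rw [sigma]
  exact finsum_mem_eq_finite_toFinset_sum _ hX

/-- The function `sigma` of the block of `s i` is `s i`. -/
lemma CentralSystem.sigma_blk (hs : CentralSystem s) (i : ι) : sigma (blk (s i)) = s i := by
  have hfin := finite_blk (s i)
  have key : s i - (∑ χ ∈ hfin.toFinset, χ 1 • χ) = 0 := by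
    apply eq_zero_of_pair_eq_zero
    · intro g h
      simp only [Pi.sub_apply, Finset.sum_apply, Pi.smul_apply]
      rw [hs.cl i]
      congr 1
      apply Finset.sum_congr rfl
      intro χ hχ
      rw [class_of_mem (hfin.mem_toFinset.mp hχ).1]
    · intro ψ hψ
      rw [pair_sub_left, pair_sum_left]
      by_cases hmem : ψ ∈ blk (s i)
      · rw [hs.pair_of_mem hmem, Finset.sum_eq_single ψ]
        · rw [pair_smul_left, pair_self_of_mem hψ]
          ring
        · intro χ hχ hne
          rw [pair_smul_left, pair_of_ne (hfin.mem_toFinset.mp hχ).1 hψ hne, mul_zero]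
        · intro h
          exact absurd (hfin.mem_toFinset.mpr hmem) h
      · have h1 : pair (s i) ψ = 0 := by
          by_contra hcon
          exact hmem ⟨hψ, hcon⟩
        rw [h1, Finset.sum_eq_zero, sub_zero]
        intro χ hχ
        have hne : χ ≠ ψ := by
          rintro rfl
          exact hmem (hfin.mem_toFinset.mp hχ)
        rw [pair_smul_left, pair_of_ne (hfin.mem_toFinset.mp hχ).1 hψ hne, mul_zero]
  ext g
  rw [sigma_eq_sum hfin]
  have h1 := congrFun key g
  simp only [Pi.sub_apply, Finset.sum_apply, Pi.smul_apply, smul_eq_mul, Pi.zero_apply] at h1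
  exact (sub_eq_zero.mp h1).symm

lemma CentralSystem.blk_nonempty (hs : CentralSystem s) (i : ι) : (blk (s i)).Nonempty := by
  by_contra hcon
  rw [Set.not_nonempty_iff_eq_empty] at hcon
  apply hs.ne i
  rw [← hs.sigma_blk i, hcon]
  ext g
  simp [sigma]

lemma CentralSystem.blk_injective (hs : CentralSystem s) :
    Function.Injective (fun i => blk (s i)) := by
  intro i j hij
  obtain ⟨χ, hχ⟩ := hs.blk_nonempty i
  have hij' : blk (s i) = blk (s j) := hij
  exact (hs.existsUnique_blk hχ.1).unique hχ (hij' ▸ hχ)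

end

end Pool.Agent.Lib.MP_1f99fc_al
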