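import Mathlib
import Pool.Agent.Lib.MP_1f99fc_al.Blocks

/-!
The group of upper unitriangular matrices, the strictly upper triangular matrices and the
two-sided orbits.
-/

namespace Pool.Agent.Lib.MP_1f99fc_al

open Matrix

/-- The space `𝔫` of strictly upper triangular `n × n` matrices over `F`. -/
def nn (n : ℕ) (F : Type) [Field F] : Submodule F (Matrix (Fin n) (Fin n) F) where
  carrier := {x | ∀ i j, j ≤ i → x i j = 0}
  add_mem' := by
    intro a b ha hb i j hij
    rw [Matrix.add_apply, ha i j hij, hb i j hij, add_zero]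
  zero_mem' := by
    intro i j _
    rfl
  smul_mem' := by
    intro c x hx i j hij
    rw [Matrix.smul_apply, hx i j hij, smul_zero]

/-- The group `U_n(F)` of upper unitriangular `n × n` matrices over `F`. -/
def UT (n : ℕ) (F : Type) [Field F] : Subgroup (Matrix (Fin n) (Fin n) F)ˣ where
  carrier := {g | ∀ i j, j ≤ i →
    (g : Matrix (Fin n) (Fin n) F) i j = (1 : Matrix (Fin n) (Fin n) F) i j}
  mul_mem' := by
    intro a b ha hb i j hij
    rw [Units.val_mul, Matrix.mul_apply]
    rcases eq_or_lt_of_le hij with rfl | hlt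
    · rw [Finset.sum_eq_single j]
      · rw [ha j j le_rfl, hb j j le_rfl]; simp
      · intro k _ hk
        rcases lt_or_gt_of_ne hk with h | h
        · rw [ha j k h.le, Matrix.one_apply_ne h.ne', zero_mul]
        · rw [hb k j h.le, Matrix.one_apply_ne h.ne', mul_zero]
      · intro h; exact absurd (Finset.mem_univ _) h
    · rw [Matrix.one_apply_ne hlt.ne']
      apply Finset.sum_eq_zero
      intro k _
      rcases lt_or_ge k i with h | h
      · rw [ha i k h.le, Matrix.one_apply_ne h.ne', zero_mul]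
      · have hkj : j < k := lt_of_lt_of_le hlt h
        rw [hb k j hkj.le, Matrix.one_apply_ne hkj.ne', mul_zero]
  one_mem' := by
    intro i j _
    rfl
  inv_mem' := by
    intro g hg
    have hbt : Matrix.BlockTriangular (g : Matrix (Fin n) (Fin n) F) id := by
      intro i j hij
      have hij' : j < i := hij
      rw [hg i j hij'.le, Matrix.one_apply_ne hij'.ne']
    have hinv : Invertible (g : Matrix (Fin n) (Fin n) F) := g.invertible
    have hbt' := Matrix.blockTriangular_inv_of_blockTriangular hbt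
    rw [← Matrix.coe_units_inv] at hbt'
    intro i j hij
    rcases eq_or_lt_of_le hij with rfl | hlt
    · have h1 : ((g : Matrix (Fin n) (Fin n) F) * ((g⁻¹ : (Matrix (Fin n) (Fin n) F)ˣ) :
        Matrix (Fin n) (Fin n) F)) j j = 1 := by
        rw [Units.mul_inv, Matrix.one_apply_eq]
      rw [Matrix.mul_apply, Finset.sum_eq_single j] at h1
      · rw [hg j j le_rfl, Matrix.one_apply_eq, one_mul] at h1
        rw [h1, Matrix.one_apply_eq]
      · intro k _ hk
        rcases lt_or_gt_of_ne hk with h | h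
        · rw [hg j k h.le, Matrix.one_apply_ne h.ne', zero_mul]
        · rw [hbt' h, mul_zero]
      · intro h; exact absurd (Finset.mem_univ _) h
    · rw [Matrix.one_apply_ne hlt.ne']
      exact hbt' hlt

section

variable {n : ℕ} {F : Type} [Field F]

/-- The matrix of an element of `U_n(F)`. -/
def mat (u : UT n F) : Matrix (Fin n) (Fin n) F := ((u : (Matrix (Fin n) (Fin n) F)ˣ) :
  Matrix (Fin n) (Fin n) F)

@[simp] lemma mat_one : mat (1 : UT n F) = 1 := rfl

@[simp] lemma mat_mul (u v : UT n F) : mat (u * v) = mat u * mat v := rfl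

lemma mat_mul_inv (u : UT n F) : mat u * mat u⁻¹ = 1 := by
  rw [← mat_mul, mul_inv_cancel, mat_one]

lemma mat_inv_mul (u : UT n F) : mat u⁻¹ * mat u = 1 := by
  rw [← mat_mul, inv_mul_cancel, mat_one]

lemma mat_injective : Function.Injective (mat (n := n) (F := F)) := by
  intro u v h
  exact Subtype.ext (Units.ext h)

lemma mat_apply_of_lt (u : UT n F) {i j : Fin n} (h : j < i) : mat u i j = 0 := by
  have := u.2 i j h.le
  rw [Matrix.one_apply_ne h.ne'] at this
  exact this

lemma mat_apply_self (u : UT n F) (i : Fin n) : mat u i i = 1 := by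
  have := u.2 i i le_rfl
  rw [Matrix.one_apply_eq] at this
  exact this

lemma mul_mem_nn (u : UT n F) {y : Matrix (Fin n) (Fin n) F} (hy : y ∈ nn n F) :
    mat u * y ∈ nn n F := by
  intro i j hij
  rw [Matrix.mul_apply]
  apply Finset.sum_eq_zero
  intro k _
  rcases lt_or_ge k i with h | h
  · rw [mat_apply_of_lt u h, zero_mul]
  · rw [hy k j (hij.trans h), mul_zero]

lemma mem_nn_mul (v : UT n F) {y : Matrix (Fin n) (Fin n) F} (hy : y ∈ nn n F) :
    y * mat v ∈ nn n F := by
  intro i j hij
  rw [Matrix.mul_apply]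
  apply Finset.sum_eq_zero
  intro k _
  rcases lt_or_ge j k with h | h
  · rw [mat_apply_of_lt v h, mul_zero]
  · rw [hy i k (h.trans hij), zero_mul]

/-- The element `u y v` of `𝔫`, for `u, v ∈ U_n(F)` and `y ∈ 𝔫`. -/
def bimul (u : UT n F) (y : nn n F) (v : UT n F) : nn n F :=
  ⟨mat u * (y : Matrix (Fin n) (Fin n) F) * mat v, mem_nn_mul v (mul_mem_nn u y.2)⟩

/-- The element `g - 1` of `𝔫`, for `g ∈ U_n(F)`. -/
def sub1 (g : UT n F) : nn n F :=
  ⟨mat g - 1, by
    intro i j hij
    have := g.2 i j hij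
    rw [Matrix.sub_apply]
    change (mat g) i j = _ at this
    rw [this, sub_self]⟩

lemma sub1_coe (g : UT n F) : (sub1 g : Matrix (Fin n) (Fin n) F) = mat g - 1 := rfl

lemma sub1_injective : Function.Injective (sub1 (n := n) (F := F)) := by
  intro g h hgh
  apply mat_injective
  have := congrArg Subtype.val hgh
  rw [sub1_coe, sub1_coe] at this
  exact sub_left_injective this

lemma sub1_surjective : Function.Surjective (sub1 (n := n) (F := F)) := by
  intro y
  have hdet : (1 + (y : Matrix (Fin n) (Fin n) F)).det = 1 := by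
    rw [Matrix.det_of_isUpperTriangular]
    · apply Finset.prod_eq_one
      intro i _
      rw [Matrix.add_apply, y.2 i i le_rfl, Matrix.one_apply_eq, add_zero]
    · intro i j hij
      have hij' : j < i := hij
      rw [Matrix.add_apply, y.2 i j hij'.le, Matrix.one_apply_ne hij'.ne', add_zero]
  have hu : IsUnit (1 + (y : Matrix (Fin n) (Fin n) F)) := by
    rw [Matrix.isUnit_iff_isUnit_det, hdet]
    exact isUnit_one
  obtain ⟨u, hu⟩ := hu
  refine ⟨⟨u, ?_⟩, ?_⟩
  · intro i j hij
    rw [hu, Matrix.add_apply, y.2 i j hij, add_zero]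
  · apply Subtype.ext
    rw [sub1_coe]
    change (u : Matrix (Fin n) (Fin n) F) - 1 = _
    rw [hu, add_sub_cancel_left]

/-- `g ↦ g - 1` as a bijection from `U_n(F)` to `𝔫`. -/
noncomputable def sub1Equiv : UT n F ≃ nn n F :=
  Equiv.ofBijective sub1 ⟨sub1_injective, sub1_surjective⟩

@[simp] lemma sub1Equiv_apply (g : UT n F) : sub1Equiv g = sub1 g := rfl

lemma bimul_coe (u : UT n F) (y : nn n F) (v : UT n F) :
    (bimul u y v : Matrix (Fin n) (Fin n) F) = mat u * (y : Matrix (Fin n) (Fin n) F) * mat v :=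
  rfl

lemma bimul_bimul (u u' : UT n F) (y : nn n F) (v v' : UT n F) :
    bimul u (bimul u' y v') v = bimul (u * u') y (v' * v) := by
  apply Subtype.ext
  simp only [bimul_coe, mat_mul, Matrix.mul_assoc]

@[simp] lemma bimul_one (y : nn n F) : bimul 1 y 1 = y := by
  apply Subtype.ext
  simp [bimul_coe]

lemma bimul_add (u : UT n F) (y z : nn n F) (v : UT n F) :
    bimul u (y + z) v = bimul u y v + bimul u z v := by
  apply Subtype.ext
  simp [bimul_coe, Matrix.mul_add, Matrix.add_mul]

lemma bimul_smul (u : UT n F) (c : F) (y : nn n F) (v : UT n F) :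
    bimul u (c • y) v = c • bimul u y v := by
  apply Subtype.ext
  simp [bimul_coe]

@[simp] lemma bimul_zero (u v : UT n F) : bimul u (0 : nn n F) v = 0 := by
  apply Subtype.ext
  simp [bimul_coe]

/-- `y ↦ u y v` as a linear map. -/
def bimulL (u v : UT n F) : nn n F →ₗ[F] nn n F where
  toFun y := bimul u y v
  map_add' y z := bimul_add u y z v
  map_smul' c y := bimul_smul u c y v

@[simp] lemma bimulL_apply (u v : UT n F) (y : nn n F) : bimulL u v y = bimul u y v := rfl

lemma sub1_conj (g u : UT n F) : sub1 (u * g * u⁻¹) = bimul u (sub1 g) u⁻¹ := by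
  apply Subtype.ext
  rw [sub1_coe, bimul_coe, sub1_coe, mat_mul, mat_mul, Matrix.mul_sub, Matrix.sub_mul,
    Matrix.mul_one, mat_mul_inv]

/-- `b⁻¹ g - 1 = b⁻¹ (g - 1) - b⁻¹ (b - 1)`. -/
lemma sub1_inv_mul (b g : UT n F) :
    sub1 (b⁻¹ * g) = bimul b⁻¹ (sub1 g) 1 - bimul b⁻¹ (sub1 b) 1 := by
  apply Subtype.ext
  rw [Submodule.coe_sub, sub1_coe, bimul_coe, bimul_coe, sub1_coe, sub1_coe, mat_mul, mat_one,
    Matrix.mul_one, Matrix.mul_one, Matrix.mul_sub, Matrix.mul_sub, mat_inv_mul, Matrix.mul_one]
  abel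

lemma sub1_eq_zero {g : UT n F} : sub1 g = 0 ↔ g = 1 := by
  have h1 : sub1 (1 : UT n F) = 0 := by
    apply Subtype.ext
    rw [sub1_coe, mat_one, sub_self]
    rfl
  constructor
  · intro h
    exact sub1_injective (h.trans h1.symm)
  · rintro rfl
    exact h1

end

end Pool.Agent.Lib.MP_1f99fc_al
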