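import Mathlib
import Pool.Agent.Lib.MP_1f99fc_al.Group

/-!
Two-sided orbits of functionals on `𝔫`, the functions `s_λ`, and their orthogonality.
-/

namespace Pool.Agent.Lib.MP_1f99fc_al

open Matrix

section

variable {n : ℕ} {F : Type} [Field F]

/-- The functional `y ↦ μ (u y v)`. -/
def dact (u v : UT n F) (μ : Module.Dual F (nn n F)) : Module.Dual F (nn n F) :=
  μ ∘ₗ bimulL u v

@[simp] lemma dact_apply (u v : UT n F) (μ : Module.Dual F (nn n F)) (y : nn n F) :
    dact u v μ y = μ (bimul u y v) := rfl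

lemma dact_dact (u v u' v' : UT n F) (μ : Module.Dual F (nn n F)) :
    dact u v (dact u' v' μ) = dact (u' * u) (v * v') μ := by
  ext y
  simp only [dact_apply, bimul_bimul]

@[simp] lemma dact_one (μ : Module.Dual F (nn n F)) : dact 1 1 μ = μ := by
  ext y
  simp only [dact_apply, bimul_one]

/-- The two-sided orbit of the functional `l`. -/
def orb (l : Module.Dual F (nn n F)) : Set (Module.Dual F (nn n F)) :=
  {μ | ∃ u v : UT n F, ∀ y, μ y = l (bimul u y v)}

lemma mem_orb {l μ : Module.Dual F (nn n F)} :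
    μ ∈ orb l ↔ ∃ u v : UT n F, dact u v l = μ := by
  constructor
  · rintro ⟨u, v, h⟩
    exact ⟨u, v, by ext y; exact (h y).symm⟩
  · rintro ⟨u, v, rfl⟩
    exact ⟨u, v, fun y => rfl⟩

lemma self_mem_orb (l : Module.Dual F (nn n F)) : l ∈ orb l := mem_orb.mpr ⟨1, 1, dact_one l⟩

lemma dact_mem_orb (u v : UT n F) (l : Module.Dual F (nn n F)) : dact u v l ∈ orb l :=
  mem_orb.mpr ⟨u, v, rfl⟩

lemma orb_eq_of_mem {l μ : Module.Dual F (nn n F)} (h : μ ∈ orb l) : orb μ = orb l := by
  obtain ⟨u, v, rfl⟩ := mem_orb.mp h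
  ext κ
  constructor
  · intro hκ
    obtain ⟨u', v', rfl⟩ := mem_orb.mp hκ
    rw [dact_dact]
    exact dact_mem_orb _ _ _
  · intro hκ
    obtain ⟨u', v', rfl⟩ := mem_orb.mp hκ
    refine mem_orb.mpr ⟨u⁻¹ * u', v' * v⁻¹, ?_⟩
    rw [dact_dact]
    congr 1
    · group
    · group

lemma orb_eq_iff {l μ : Module.Dual F (nn n F)} : orb l = orb μ ↔ l ∈ orb μ :=
  ⟨fun h => h ▸ self_mem_orb l, orb_eq_of_mem⟩

lemma dact_mem_orb_iff {u v : UT n F} {l μ : Module.Dual F (nn n F)} :
    dact u v μ ∈ orb l ↔ μ ∈ orb l := by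
  rw [← orb_eq_iff, ← orb_eq_iff, orb_eq_of_mem (dact_mem_orb u v μ)]

/-- The type of two-sided orbits of functionals. -/
@[ext] structure DOrb (n : ℕ) (F : Type) [Field F] : Type where
  /-- the underlying set -/
  carrier : Set (Module.Dual F (nn n F))
  ex : ∃ l, carrier = orb l

lemma mem_iff_orb_eq (i : DOrb n F) (μ : Module.Dual F (nn n F)) : μ ∈ i.1 ↔ i.1 = orb μ := by
  obtain ⟨O, l, rfl⟩ := i
  constructor
  · intro h
    exact (orb_eq_of_mem h).symm
  · intro h
    change orb l = orb μ at h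
    change μ ∈ orb l
    rw [h]
    exact self_mem_orb μ

/-- The function `g ↦ ∑_{μ ∈ O} θ (μ (g - 1))` on `U_n(F)`. -/
noncomputable def sfun (θ : AddChar F ℂ) (O : Set (Module.Dual F (nn n F))) (g : UT n F) : ℂ :=
  ∑ᶠ μ ∈ O, θ (μ (sub1 g))

end

section

variable {n : ℕ} {F : Type} [Field F] [Fintype F]

noncomputable instance : Fintype (nn n F) := Fintype.ofFinite _

noncomputable instance : Fintype (UT n F) := Fintype.ofEquiv _ (sub1Equiv (n := n) (F := F)).symm

instance : Finite (Module.Dual F (nn n F)) := by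
  have : Module.Finite F (Module.Dual F (nn n F)) := inferInstance
  exact Module.finite_of_finite F

noncomputable instance : Fintype (Module.Dual F (nn n F)) := Fintype.ofFinite _

instance : Finite (DOrb n F) :=
  Finite.of_injective DOrb.carrier (fun _ _ h => DOrb.ext h)

noncomputable instance : Fintype (DOrb n F) := Fintype.ofFinite _

noncomputable instance : DecidableEq (DOrb n F) := Classical.decEq _

noncomputable instance : DecidableEq (UT n F) := Classical.decEq _

omit [Fintype F] in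
lemma card_UT : Nat.card (UT n F) = Nat.card (nn n F) :=
  Nat.card_congr sub1Equiv

lemma card_dual : Nat.card (Module.Dual F (nn n F)) = Nat.card (nn n F) := by
  rw [Nat.card_eq_fintype_card, Nat.card_eq_fintype_card,
    Module.card_eq_pow_finrank (K := F) (V := Module.Dual F (nn n F)),
    Module.card_eq_pow_finrank (K := F) (V := nn n F), Subspace.dual_finrank_eq]

open Classical in
lemma sfun_eq (θ : AddChar F ℂ) (O : Set (Module.Dual F (nn n F))) (g : UT n F) :
    sfun θ O g = ∑ μ : Module.Dual F (nn n F), if μ ∈ O then θ (μ (sub1 g)) else 0 := by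
  unfold sfun
  rw [finsum_mem_def, finsum_eq_sum_of_fintype]
  apply Finset.sum_congr rfl
  intro μ _
  rw [Set.indicator_apply]

lemma exists_ne_one {θ : AddChar F ℂ} (hθ : θ ≠ 1) : ∃ a, θ a ≠ 1 := by
  by_contra hcon
  push Not at hcon
  apply hθ
  ext a
  simpa using hcon a

open Classical in
lemma sum_theta_of_hom {A : Type*} [AddCommGroup A] [Module F A] [Fintype A] {θ : AddChar F ℂ}
    (hθ : θ ≠ 1) (κ : A →ₗ[F] F) :
    ∑ y : A, θ (κ y) = if κ = 0 then (Nat.card A : ℂ) else 0 := by
  have h1 := AddChar.sum_eq_ite (θ.compAddMonoidHom κ.toAddMonoidHom)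
  have h2 : θ.compAddMonoidHom κ.toAddMonoidHom = 0 ↔ κ = 0 := by
    constructor
    · intro h
      by_contra hκ
      obtain ⟨y, hy⟩ : ∃ y, κ y ≠ 0 := by
        by_contra hcon
        push Not at hcon
        exact hκ (LinearMap.ext hcon)
      obtain ⟨a, ha⟩ := exists_ne_one hθ
      apply ha
      have h3 := DFunLike.congr_fun h ((a / κ y) • y)
      simp only [AddChar.compAddMonoidHom_apply, LinearMap.toAddMonoidHom_coe, map_smul,
        smul_eq_mul, div_mul_cancel₀ _ hy, AddChar.zero_apply] at h3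
      exact h3
    · rintro rfl
      ext y
      simp
  simp only [h2] at h1
  rw [Nat.card_eq_fintype_card]
  simpa using h1

open Classical in
lemma sum_theta_dual {θ : AddChar F ℂ} (hθ : θ ≠ 1) (y : nn n F) :
    ∑ μ : Module.Dual F (nn n F), θ (μ y) = if y = 0 then (Nat.card (nn n F) : ℂ) else 0 := by
  have h1 := sum_theta_of_hom hθ (Module.Dual.eval F (nn n F) y)
  simp only [Module.Dual.eval_apply, card_dual] at h1
  rw [h1]
  congr 1
  rw [Module.eval_apply_eq_zero_iff]

end

end Pool.Agent.Lib.MP_1f99fc_al
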