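import Mathlib
import Pool.Agent.Lib.MP_1f99fc_al.Dual

/-!
The functions `s_λ` form a central system; the number of two-sided orbits on `𝔫` and on its dual
agree.
-/

namespace Pool.Agent.Lib.MP_1f99fc_al

open Matrix

section

variable {n : ℕ} {F : Type} [Field F]

/-- `dact u v` as a bijection. -/
def dactEquiv (u v : UT n F) : Module.Dual F (nn n F) ≃ Module.Dual F (nn n F) where
  toFun := dact u v
  invFun := dact u⁻¹ v⁻¹
  left_inv μ := by rw [dact_dact]; simp
  right_inv μ := by rw [dact_dact]; simp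

lemma dact_mem_iff (u v : UT n F) (μ : Module.Dual F (nn n F)) (i : DOrb n F) :
    dact u v μ ∈ i.1 ↔ μ ∈ i.1 := by
  obtain ⟨O, l, rfl⟩ := i
  exact dact_mem_orb_iff

lemma bimul_sub1_inv_mul (b g : UT n F) :
    bimul b (sub1 (b⁻¹ * g)) 1 = sub1 g - sub1 b := by
  apply Subtype.ext
  rw [Submodule.coe_sub, bimul_coe, sub1_coe, sub1_coe, sub1_coe, mat_mul, mat_one,
    Matrix.mul_one, Matrix.mul_sub, ← Matrix.mul_assoc, mat_mul_inv, Matrix.mul_one,
    Matrix.one_mul, sub_sub_sub_cancel_right]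

variable [Fintype F]

lemma sum_dact (u v : UT n F) (f : Module.Dual F (nn n F) → ℂ) :
    ∑ μ, f (dact u v μ) = ∑ μ, f μ := Equiv.sum_comp (dactEquiv u v) f

lemma sum_sub1 (f : nn n F → ℂ) : ∑ b : UT n F, f (sub1 b) = ∑ y, f y :=
  Equiv.sum_comp sub1Equiv f

lemma sfun_conj (θ : AddChar F ℂ) (i : DOrb n F) (g h : UT n F) :
    sfun θ i.1 (h * g * h⁻¹) = sfun θ i.1 g := by
  classical
  rw [sfun_eq, sfun_eq, ← sum_dact h h⁻¹
    (fun μ => if μ ∈ i.1 then θ (μ (sub1 g)) else 0)]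
  apply Finset.sum_congr rfl
  intro μ _
  rw [dact_mem_iff, sub1_conj, dact_apply]

open Classical in
lemma sfun_inv_mul (θ : AddChar F ℂ) (i : DOrb n F) (b g : UT n F) :
    sfun θ i.1 (b⁻¹ * g) =
      ∑ μ : Module.Dual F (nn n F), if μ ∈ i.1 then θ (μ (sub1 g)) * θ (- μ (sub1 b)) else 0 := by
  rw [sfun_eq, ← sum_dact b 1]
  apply Finset.sum_congr rfl
  intro μ _
  rw [dact_mem_iff, dact_apply, bimul_sub1_inv_mul, map_sub, sub_eq_add_neg,
    AddChar.map_add_eq_mul]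

lemma sfun_conv {θ : AddChar F ℂ} (hθ : θ ≠ 1) (i j : DOrb n F) (g : UT n F) :
    ∑ b : UT n F, sfun θ i.1 b * sfun θ j.1 (b⁻¹ * g) =
      if i = j then (Nat.card (UT n F) : ℂ) * sfun θ i.1 g else 0 := by
  classical
  have h1 : ∀ b : UT n F, sfun θ i.1 b * sfun θ j.1 (b⁻¹ * g) =
      ∑ μ : Module.Dual F (nn n F), ∑ ν : Module.Dual F (nn n F),
        (if μ ∈ i.1 ∧ ν ∈ j.1 then θ (ν (sub1 g)) else 0) * θ ((μ - ν) (sub1 b)) := by
    intro b
    rw [sfun_inv_mul, sfun_eq, Finset.sum_mul_sum]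
    apply Finset.sum_congr rfl
    intro μ _
    apply Finset.sum_congr rfl
    intro ν _
    by_cases hμ : μ ∈ i.1
    · by_cases hν : ν ∈ j.1
      · have h3 : (μ - ν) (sub1 b) = μ (sub1 b) + (- ν (sub1 b)) := by
          rw [LinearMap.sub_apply, sub_eq_add_neg]
        rw [h3, AddChar.map_add_eq_mul]
        simp only [hμ, hν, and_self, if_true]
        ring
      · simp [hν]
    · simp [hμ]
  simp only [h1]
  rw [Finset.sum_comm]
  have h2 : ∀ μ : Module.Dual F (nn n F), ∑ b : UT n F, ∑ ν : Module.Dual F (nn n F),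
        (if μ ∈ i.1 ∧ ν ∈ j.1 then θ (ν (sub1 g)) else 0) * θ ((μ - ν) (sub1 b)) =
      (Nat.card (UT n F) : ℂ) * (if μ ∈ i.1 ∧ μ ∈ j.1 then θ (μ (sub1 g)) else 0) := by
    intro μ
    rw [Finset.sum_comm]
    rw [Finset.sum_eq_single μ]
    · rw [← Finset.mul_sum, sum_sub1 (fun y => θ ((μ - μ) y))]
      rw [sum_theta_of_hom hθ, if_pos (sub_self μ), card_UT, mul_comm]
    · intro ν _ hν
      rw [← Finset.mul_sum]
      rw [sum_sub1 (fun y => θ ((μ - ν) y))]
      rw [sum_theta_of_hom hθ, if_neg (sub_ne_zero.mpr (Ne.symm hν)), mul_zero]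
    · intro h
      exact absurd (Finset.mem_univ _) h
  simp only [h2]
  rw [← Finset.mul_sum]
  by_cases hij : i = j
  · subst hij
    rw [if_pos rfl, sfun_eq]
    simp
  · rw [if_neg hij, Finset.sum_eq_zero, mul_zero]
    intro μ _
    rw [if_neg]
    rintro ⟨h3, h4⟩
    apply hij
    apply DOrb.ext
    rw [(mem_iff_orb_eq i μ).mp h3, (mem_iff_orb_eq j μ).mp h4]

lemma sum_sfun {θ : AddChar F ℂ} (hθ : θ ≠ 1) (g : UT n F) :
    ∑ i : DOrb n F, sfun θ i.1 g = if g = 1 then (Nat.card (UT n F) : ℂ) else 0 := by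
  classical
  simp only [sfun_eq]
  rw [Finset.sum_comm]
  have h1 : ∀ μ : Module.Dual F (nn n F),
      ∑ i : DOrb n F, (if μ ∈ i.1 then θ (μ (sub1 g)) else 0) = θ (μ (sub1 g)) := by
    intro μ
    rw [Finset.sum_eq_single (⟨orb μ, μ, rfl⟩ : DOrb n F)]
    · exact if_pos (self_mem_orb μ)
    · intro i _ hi
      rw [if_neg]
      intro h
      apply hi
      apply DOrb.ext
      exact (mem_iff_orb_eq i μ).mp h
    · intro h
      exact absurd (Finset.mem_univ _) h
  simp only [h1]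
  rw [sum_theta_dual hθ, card_UT]
  simp only [sub1_eq_zero]

lemma sfun_one_ne_zero (θ : AddChar F ℂ) (i : DOrb n F) : sfun θ i.1 1 ≠ 0 := by
  classical
  rw [sfun_eq]
  have h0 : sub1 (1 : UT n F) = 0 := sub1_eq_zero.mpr rfl
  simp only [h0, map_zero, AddChar.map_zero_eq_one]
  rw [Finset.sum_boole]
  obtain ⟨O, l, rfl⟩ := i
  have : (Finset.univ.filter (fun μ => μ ∈ orb l)).Nonempty :=
    ⟨l, by simp [self_mem_orb]⟩
  exact_mod_cast this.card_pos.ne'

lemma sfun_ne_zero (θ : AddChar F ℂ) (i : DOrb n F) : sfun θ i.1 ≠ 0 := by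
  intro h
  exact sfun_one_ne_zero θ i (congrFun h 1)

/-- The functions `s_λ` form a central system. -/
lemma centralSystem {θ : AddChar F ℂ} (hθ : θ ≠ 1) :
    CentralSystem (fun i : DOrb n F => sfun θ i.1) where
  cl i g h := sfun_conj θ i g h
  conv i j g := sfun_conv hθ i j g
  sum g := sum_sfun hθ g
  ne i := sfun_ne_zero θ i

end

end Pool.Agent.Lib.MP_1f99fc_al
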