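import Mathlib
import Pool.Agent.Lib.MP_1f99fc_al.System

/-!
The number of two-sided orbits on `𝔫` and on its dual agree (Burnside).
-/

namespace Pool.Agent.Lib.MP_1f99fc_al

section

lemma ncard_orbits {G X : Type} [Group G] [MulAction G X] :
    {O : Set X | ∃ x, O = MulAction.orbit G x}.ncard =
      Nat.card (MulAction.orbitRel.Quotient G X) := by
  have h1 : {O : Set X | ∃ x, O = MulAction.orbit G x} =
      Set.range (MulAction.orbitRel.Quotient.orbit (G := G) (α := X)) := by
    ext O
    constructor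
    · rintro ⟨x, rfl⟩
      exact ⟨Quotient.mk _ x, rfl⟩
    · rintro ⟨q, rfl⟩
      induction q using Quotient.inductionOn with
      | h x => exact ⟨x, rfl⟩
  rw [h1, ← Set.image_univ, Set.ncard_image_of_injective _
    (MulAction.orbitRel.Quotient.orbit_injective), Set.ncard_univ]

lemma ncard_orbits_eq {G X Y : Type} [Group G] [Finite G] [Finite X] [Finite Y]
    [MulAction G X] [MulAction G Y]
    (h : ∀ g : G, Nat.card (MulAction.fixedBy X g) = Nat.card (MulAction.fixedBy Y g)) :
    {O : Set X | ∃ x, O = MulAction.orbit G x}.ncard =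
      {O : Set Y | ∃ x, O = MulAction.orbit G x}.ncard := by
  classical
  rw [ncard_orbits, ncard_orbits]
  have := Fintype.ofFinite G
  have := Fintype.ofFinite X
  have := Fintype.ofFinite Y
  have hX := MulAction.sum_card_fixedBy_eq_card_orbits_mul_card_group G X
  have hY := MulAction.sum_card_fixedBy_eq_card_orbits_mul_card_group G Y
  simp only [← Nat.card_eq_fintype_card] at hX hY
  simp only [h] at hX
  rw [hX] at hY
  exact Nat.eq_of_mul_eq_mul_right Nat.card_pos hY

end

section

variable {n : ℕ} {F : Type} [Field F]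

/-- The two-sided orbit of an element of `𝔫`. -/
def porb (y : nn n F) : Set (nn n F) := {z | ∃ u v : UT n F, z = bimul u y v}

/-- The action of `U × U` on `𝔫`. -/
@[instance_reducible] def actN : MulAction (UT n F × UT n F) (nn n F) where
  smul g y := bimul g.1 y g.2⁻¹
  one_smul y := by
    change bimul 1 y 1⁻¹ = y
    rw [inv_one, bimul_one]
  mul_smul g h y := by
    change bimul (g.1 * h.1) y (g.2 * h.2)⁻¹ = bimul g.1 (bimul h.1 y h.2⁻¹) g.2⁻¹
    rw [bimul_bimul, mul_inv_rev]

/-- The action of `U × U` on the dual of `𝔫`. -/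
@[instance_reducible] def actD : MulAction (UT n F × UT n F) (Module.Dual F (nn n F)) where
  smul g μ := dact g.1⁻¹ g.2 μ
  one_smul μ := by
    change dact 1⁻¹ 1 μ = μ
    rw [inv_one, dact_one]
  mul_smul g h μ := by
    change dact (g.1 * h.1)⁻¹ (g.2 * h.2) μ = dact g.1⁻¹ g.2 (dact h.1⁻¹ h.2 μ)
    rw [dact_dact, mul_inv_rev]

variable [Fintype F]

lemma card_ker_dual {V : Type} [AddCommGroup V] [Module F V] [Finite V] (f : V →ₗ[F] V) :
    Nat.card (LinearMap.ker f) = Nat.card (LinearMap.ker f.dualMap) := by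
  have hf : Module.Finite F V := Module.Finite.of_finite
  have h1 := LinearMap.finrank_range_add_finrank_ker f
  have h2 := LinearMap.finrank_range_add_finrank_ker f.dualMap
  rw [LinearMap.finrank_range_dualMap_eq_finrank_range, Subspace.dual_finrank_eq] at h2
  have h3 : Module.finrank F (LinearMap.ker f) = Module.finrank F (LinearMap.ker f.dualMap) := by
    omega
  have : Finite (Module.Dual F V) := Module.finite_of_finite F
  rw [Module.natCard_eq_pow_finrank (K := F) (V := LinearMap.ker f),
    Module.natCard_eq_pow_finrank (K := F) (V := LinearMap.ker f.dualMap), h3]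

lemma ncard_porb_eq_ncard_orb :
    {O : Set (nn n F) | ∃ y, O = porb y}.ncard =
      {O : Set (Module.Dual F (nn n F)) | ∃ l, O = orb l}.ncard := by
  letI a1 : MulAction (UT n F × UT n F) (nn n F) := actN
  letI a2 : MulAction (UT n F × UT n F) (Module.Dual F (nn n F)) := actD
  have h1 : ∀ y : nn n F, porb y = MulAction.orbit (UT n F × UT n F) y := by
    intro y
    ext z
    rw [MulAction.mem_orbit_iff]
    constructor
    · rintro ⟨u, v, rfl⟩
      refine ⟨(u, v⁻¹), ?_⟩
      change bimul u y v⁻¹⁻¹ = _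
      rw [inv_inv]
    · rintro ⟨⟨u, v⟩, h⟩
      exact ⟨u, v⁻¹, h.symm⟩
  have h2 : ∀ l : Module.Dual F (nn n F), orb l = MulAction.orbit (UT n F × UT n F) l := by
    intro l
    ext z
    rw [MulAction.mem_orbit_iff, mem_orb]
    constructor
    · rintro ⟨u, v, rfl⟩
      refine ⟨(u⁻¹, v), ?_⟩
      change dact u⁻¹⁻¹ v l = _
      rw [inv_inv]
    · rintro ⟨⟨u, v⟩, h⟩
      exact ⟨u⁻¹, v, h⟩
  simp only [h1, h2]
  apply ncard_orbits_eq
  rintro ⟨u, v⟩
  have h3 : MulAction.fixedBy (nn n F) (u, v) =
      (LinearMap.ker (bimulL u v⁻¹ - LinearMap.id : nn n F →ₗ[F] nn n F) : Set (nn n F)) := by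
    ext y
    rw [MulAction.mem_fixedBy, SetLike.mem_coe, LinearMap.mem_ker, LinearMap.sub_apply,
      sub_eq_zero]
    rfl
  have h4 : MulAction.fixedBy (Module.Dual F (nn n F)) (u, v) =
      (LinearMap.ker (bimulL u v⁻¹ - LinearMap.id : nn n F →ₗ[F] nn n F).dualMap :
        Set (Module.Dual F (nn n F))) := by
    ext μ
    rw [MulAction.mem_fixedBy, SetLike.mem_coe, LinearMap.mem_ker]
    have h5 : (u, v) • μ = dact u⁻¹ v μ := rfl
    rw [h5]
    have h6 : (bimulL u v⁻¹ - LinearMap.id : nn n F →ₗ[F] nn n F).dualMap μ =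
        dact u v⁻¹ μ - μ := by
      ext y
      simp
    rw [h6, sub_eq_zero]
    constructor
    · intro h
      rw [← h, dact_dact, h]
      simp
    · intro h
      rw [← h, dact_dact, h]
      simp
  rw [h3, h4]
  exact card_ker_dual _

end

end Pool.Agent.Lib.MP_1f99fc_al
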