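import Mathlib
import Pool.Agent.Lib.MP_1f99fc_al.Burnside

/-!
Supercharacter theories and André's supercharacter theory of `U_n(F)`.
-/

namespace Pool.Agent.Lib.MP_1f99fc_al

/-- `(𝒳, 𝒦)` is a supercharacter theory (Diaconis–Isaacs) of the finite group `G`: `𝒳` is a
partition of `Irr G`, `𝒦` is a partition of `G`, they have the same number of blocks, `{1}` is a
block of `𝒦`, and each `σ_X = ∑ χ ∈ X, χ(1) χ` is constant on each block of `𝒦`. -/
structure IsSupercharacterTheory {G : Type} [Group G] (𝒳 : Set (Set (G → ℂ)))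
    (𝒦 : Set (Set G)) : Prop where
  nonempty_subset : ∀ X ∈ 𝒳, X.Nonempty ∧ X ⊆ Irr G
  existsUnique_char : ∀ χ ∈ Irr G, ∃! X, X ∈ 𝒳 ∧ χ ∈ X
  nonempty_class : ∀ K ∈ 𝒦, K.Nonempty
  existsUnique_class : ∀ g : G, ∃! K, K ∈ 𝒦 ∧ g ∈ K
  ncard_eq : 𝒳.ncard = 𝒦.ncard
  one_mem : {1} ∈ 𝒦
  constant : ∀ X ∈ 𝒳, ∀ K ∈ 𝒦, ∀ g ∈ K, ∀ h ∈ K, sigma X g = sigma X h

section

variable {n : ℕ} {F : Type} [Field F]

/-- The superclass `{g | g - 1 ∈ U (x - 1) U}`. -/
def scl (x : UT n F) : Set (UT n F) := {g | ∃ u v : UT n F, sub1 g = bimul u (sub1 x) v}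

variable (n F) in
/-- The superclasses of André's theory. -/
def andreK : Set (Set (UT n F)) := {K | ∃ x, K = scl x}

variable [Fintype F]

variable (n F) in
/-- The blocks of irreducible characters of André's theory: the block of the two-sided orbit `O`
consists of the irreducible characters that are not orthogonal to `g ↦ ∑_{μ ∈ O} θ (μ (g - 1))`. -/
def andreX (θ : AddChar F ℂ) : Set (Set (UT n F → ℂ)) :=
  {X | ∃ l : Module.Dual F (nn n F), X = blk (sfun θ (orb l))}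

omit [Fintype F] in
lemma scl_eq (x : UT n F) : scl x = sub1 ⁻¹' porb (sub1 x) := rfl

omit [Fintype F] in
lemma self_mem_scl (x : UT n F) : x ∈ scl x := ⟨1, 1, (bimul_one _).symm⟩

omit [Fintype F] in
lemma scl_eq_of_mem {x g : UT n F} (h : g ∈ scl x) : scl g = scl x := by
  obtain ⟨u, v, h⟩ := h
  ext k
  constructor
  · rintro ⟨u', v', h'⟩
    rw [h, bimul_bimul] at h'
    exact ⟨_, _, h'⟩
  · rintro ⟨u', v', h'⟩
    refine ⟨u' * u⁻¹, v⁻¹ * v', ?_⟩
    rw [h', h, bimul_bimul]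
    congr 1
    · group
    · group

omit [Fintype F] in
lemma scl_one : scl (1 : UT n F) = {1} := by
  ext g
  have h0 : sub1 (1 : UT n F) = 0 := sub1_eq_zero.mpr rfl
  constructor
  · rintro ⟨u, v, h⟩
    rw [h0, bimul_zero] at h
    exact sub1_eq_zero.mp h
  · rintro rfl
    exact self_mem_scl 1

lemma sfun_of_mem_scl (θ : AddChar F ℂ) (l : Module.Dual F (nn n F)) {x g : UT n F}
    (h : g ∈ scl x) : sfun θ (orb l) g = sfun θ (orb l) x := by
  classical
  obtain ⟨u, v, h⟩ := h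
  rw [sfun_eq, sfun_eq, ← sum_dact u v (fun μ => if μ ∈ orb l then θ (μ (sub1 x)) else 0)]
  apply Finset.sum_congr rfl
  intro μ _
  rw [dact_mem_orb_iff, h, dact_apply]

omit [Fintype F] in
lemma ncard_andreK : (andreK n F).ncard = {O : Set (nn n F) | ∃ y, O = porb y}.ncard := by
  have h1 : andreK n F = (fun O : Set (nn n F) => sub1 ⁻¹' O) ''
      {O : Set (nn n F) | ∃ y, O = porb y} := by
    ext K
    constructor
    · rintro ⟨x, rfl⟩
      exact ⟨porb (sub1 x), ⟨_, rfl⟩, rfl⟩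
    · rintro ⟨O, ⟨y, rfl⟩, rfl⟩
      obtain ⟨x, rfl⟩ := sub1_surjective y
      exact ⟨x, rfl⟩
  rw [h1, Set.ncard_image_of_injective]
  exact Set.preimage_injective.mpr sub1_surjective

lemma andreX_eq (θ : AddChar F ℂ) :
    andreX n F θ = (fun i : DOrb n F => blk (sfun θ i.1)) '' Set.univ := by
  ext X
  constructor
  · rintro ⟨l, rfl⟩
    exact ⟨⟨orb l, l, rfl⟩, Set.mem_univ _, rfl⟩
  · rintro ⟨⟨O, l, rfl⟩, _, rfl⟩
    exact ⟨l, rfl⟩

lemma ncard_andreX {θ : AddChar F ℂ} (hθ : θ ≠ 1) :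
    (andreX n F θ).ncard = {O : Set (Module.Dual F (nn n F)) | ∃ l, O = orb l}.ncard := by
  rw [andreX_eq, Set.ncard_image_of_injective _ (centralSystem hθ).blk_injective]
  have h1 : {O : Set (Module.Dual F (nn n F)) | ∃ l, O = orb l} =
      DOrb.carrier '' (Set.univ : Set (DOrb n F)) := by
    ext O
    constructor
    · rintro ⟨l, rfl⟩
      exact ⟨⟨orb l, l, rfl⟩, Set.mem_univ _, rfl⟩
    · rintro ⟨⟨O, l, rfl⟩, _, rfl⟩
      exact ⟨l, rfl⟩
  rw [h1, Set.ncard_image_of_injective]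
  intro i j h
  exact DOrb.ext h

lemma sigma_andre {θ : AddChar F ℂ} (hθ : θ ≠ 1) (l : Module.Dual F (nn n F)) :
    sigma (blk (sfun θ (orb l))) = sfun θ (orb l) :=
  (centralSystem hθ).sigma_blk ⟨orb l, l, rfl⟩

lemma isSupercharacterTheory_andre {θ : AddChar F ℂ} (hθ : θ ≠ 1) :
    IsSupercharacterTheory (andreX n F θ) (andreK n F) where
  nonempty_subset := by
    rintro X ⟨l, rfl⟩
    exact ⟨(centralSystem hθ).blk_nonempty ⟨orb l, l, rfl⟩, fun χ h => h.1⟩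
  existsUnique_char := by
    intro χ hχ
    obtain ⟨i, hi, huniq⟩ := (centralSystem (n := n) hθ).existsUnique_blk hχ
    refine ⟨blk (sfun θ i.1), ⟨?_, hi⟩, ?_⟩
    · obtain ⟨O, l, rfl⟩ := i
      exact ⟨l, rfl⟩
    · rintro X ⟨⟨l, rfl⟩, hX⟩
      have := huniq ⟨orb l, l, rfl⟩ hX
      rw [← this]
  nonempty_class := by
    rintro K ⟨x, rfl⟩
    exact ⟨x, self_mem_scl x⟩
  existsUnique_class := by
    intro g
    refine ⟨scl g, ⟨⟨g, rfl⟩, self_mem_scl g⟩, ?_⟩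
    rintro K ⟨⟨x, rfl⟩, hK⟩
    exact (scl_eq_of_mem hK).symm
  ncard_eq := by
    rw [ncard_andreX hθ, ncard_andreK, ncard_porb_eq_ncard_orb]
  one_mem := ⟨1, scl_one.symm⟩
  constant := by
    rintro X ⟨l, rfl⟩ K ⟨x, rfl⟩ g hg h hh
    rw [sigma_andre hθ, sfun_of_mem_scl θ l hg, sfun_of_mem_scl θ l hh]

end

end Pool.Agent.Lib.MP_1f99fc_al
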