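import Mathlib
import Pool.Agent.Lib.MP_1f99fc_al.Andre

/-!
The single-box supercharacters are irreducible up to a scalar.
-/

namespace Pool.Agent.Lib.MP_1f99fc_al

open Matrix Representation

section

variable {n : ℕ} {F : Type} [Field F]

/-- The functional `y ↦ a * y i j`. -/
def boxL (i j : Fin n) (a : F) : Module.Dual F (nn n F) where
  toFun y := a * (y : Matrix (Fin n) (Fin n) F) i j
  map_add' y z := by
    rw [Submodule.coe_add, Matrix.add_apply, mul_add]
  map_smul' c y := by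
    rw [Submodule.coe_smul, Matrix.smul_apply, smul_eq_mul, RingHom.id_apply, smul_eq_mul]
    ring

lemma boxL_apply (i j : Fin n) (a : F) (y : nn n F) :
    boxL i j a y = a * (y : Matrix (Fin n) (Fin n) F) i j := rfl

lemma bimul_apply (u v : UT n F) (y : nn n F) (i j : Fin n) :
    (bimul u y v : Matrix (Fin n) (Fin n) F) i j =
      ∑ l, ∑ k, mat u i k * (y : Matrix (Fin n) (Fin n) F) k l * mat v l j := by
  rw [bimul_coe, Matrix.mul_apply]
  apply Finset.sum_congr rfl
  intro l _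
  rw [Matrix.mul_apply, Finset.sum_mul]

/-- An element of `U_n(F)` with prescribed entries. -/
lemma exists_mat (y : Matrix (Fin n) (Fin n) F) (hy : y ∈ nn n F) :
    ∃ g : UT n F, mat g = 1 + y := by
  obtain ⟨g, hg⟩ := sub1_surjective (⟨y, hy⟩ : nn n F)
  refine ⟨g, ?_⟩
  have h1 : mat g - 1 = y := congrArg Subtype.val hg
  rw [← h1]
  abel

lemma mat_inv_eq {g : UT n F} {m : Matrix (Fin n) (Fin n) F} (h : mat g * m = 1) :
    mat g⁻¹ = m := by
  calc mat g⁻¹ = mat g⁻¹ * (mat g * m) := by rw [h, Matrix.mul_one]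
    _ = m := by rw [← Matrix.mul_assoc, mat_inv_mul, Matrix.one_mul]

/-- The two-sided orbit of a single box is one coadjoint orbit. -/
lemma exists_conj (i j : Fin n) (hij : i < j) (a : F) (u v : UT n F) :
    ∃ w : UT n F, dact w w⁻¹ (boxL i j a) = dact u v (boxL i j a) := by
  classical
  let R : Matrix (Fin n) (Fin n) F :=
    Matrix.of fun k l => if k = i ∧ i < l ∧ l < j then mat u i l else 0
  let C : Matrix (Fin n) (Fin n) F :=
    Matrix.of fun k l => if l = j ∧ i < k ∧ k < j then mat v k j else 0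
  have hR : R ∈ nn n F := by
    intro k l hkl
    simp only [R, Matrix.of_apply]
    rw [if_neg]
    rintro ⟨rfl, h2, _⟩
    exact absurd hkl (not_le.mpr h2)
  have hC : C ∈ nn n F := by
    intro k l hkl
    simp only [C, Matrix.of_apply]
    rw [if_neg]
    rintro ⟨rfl, _, h2⟩
    exact absurd hkl (not_le.mpr h2)
  have hRR : R * R = 0 := by
    ext k l
    rw [Matrix.mul_apply, Matrix.zero_apply]
    apply Finset.sum_eq_zero
    intro m _
    simp only [R, Matrix.of_apply]
    by_cases h1 : k = i ∧ i < m ∧ m < j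
    · rw [if_neg (c := m = i ∧ i < l ∧ l < j), mul_zero]
      rintro ⟨rfl, _⟩
      exact absurd h1.2.1 (lt_irrefl _)
    · rw [if_neg h1, zero_mul]
  have hCC : C * C = 0 := by
    ext k l
    rw [Matrix.mul_apply, Matrix.zero_apply]
    apply Finset.sum_eq_zero
    intro m _
    simp only [C, Matrix.of_apply]
    by_cases h1 : m = j ∧ i < k ∧ k < j
    · rw [if_neg (c := l = j ∧ i < m ∧ m < j), mul_zero]
      rintro ⟨_, _, h2⟩
      rw [h1.1] at h2
      exact absurd h2 (lt_irrefl _)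
    · rw [if_neg h1, zero_mul]
  obtain ⟨A, hA⟩ := exists_mat R hR
  obtain ⟨B, hB⟩ := exists_mat C hC
  have hA' : mat A⁻¹ = 1 - R := by
    apply mat_inv_eq
    rw [hA, Matrix.mul_sub, Matrix.mul_one, Matrix.add_mul, Matrix.one_mul, hRR]
    simp
  have hB' : mat B⁻¹ = 1 - C := by
    apply mat_inv_eq
    rw [hB, Matrix.mul_sub, Matrix.mul_one, Matrix.add_mul, Matrix.one_mul, hCC]
    simp
  refine ⟨A * B⁻¹, ?_⟩
  have hw1 : ∀ k, k < j → mat (A * B⁻¹) i k = mat u i k := by
    intro k hk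
    rw [mat_mul, hA, hB', Matrix.mul_sub, Matrix.mul_one, Matrix.sub_apply]
    have h1 : ((1 + R) * C) i k = 0 := by
      rw [Matrix.mul_apply]
      apply Finset.sum_eq_zero
      intro m _
      simp only [C, Matrix.of_apply]
      rw [if_neg, mul_zero]
      rintro ⟨rfl, _⟩
      exact absurd hk (lt_irrefl _)
    rw [h1, sub_zero, Matrix.add_apply]
    simp only [R, Matrix.of_apply]
    rcases lt_trichotomy k i with h | h | h
    · rw [mat_apply_of_lt u h, Matrix.one_apply_ne h.ne', if_neg, add_zero]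
      rintro ⟨_, h2, _⟩
      exact absurd (h.trans h2) (lt_irrefl _)
    · subst h
      rw [mat_apply_self, Matrix.one_apply_eq, if_neg, add_zero]
      rintro ⟨_, h2, _⟩
      exact absurd h2 (lt_irrefl _)
    · rw [Matrix.one_apply_ne h.ne, if_pos ⟨trivial, h, hk⟩, zero_add]
  have hw2 : ∀ l, i < l → mat (A * B⁻¹)⁻¹ l j = mat v l j := by
    intro l hl
    rw [_root_.mul_inv_rev, inv_inv, mat_mul, hA', hB, Matrix.mul_sub, Matrix.mul_one,
      Matrix.sub_apply]
    have h1 : ((1 + C) * R) l j = 0 := by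
      rw [Matrix.mul_apply]
      apply Finset.sum_eq_zero
      intro m _
      simp only [R, Matrix.of_apply]
      rw [if_neg, mul_zero]
      rintro ⟨_, _, h2⟩
      exact absurd h2 (lt_irrefl _)
    rw [h1, sub_zero, Matrix.add_apply]
    simp only [C, Matrix.of_apply]
    rcases lt_trichotomy l j with h | h | h
    · rw [Matrix.one_apply_ne h.ne, if_pos ⟨trivial, hl, h⟩, zero_add]
    · subst h
      rw [mat_apply_self, Matrix.one_apply_eq, if_neg, add_zero]
      rintro ⟨_, _, h2⟩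
      exact absurd h2 (lt_irrefl _)
    · rw [mat_apply_of_lt v h, Matrix.one_apply_ne h.ne', if_neg, add_zero]
      rintro ⟨_, _, h2⟩
      exact absurd (h.trans h2) (lt_irrefl _)
  ext y
  rw [dact_apply, dact_apply, boxL_apply, boxL_apply, bimul_apply, bimul_apply]
  congr 1
  apply Finset.sum_congr rfl
  intro l _
  apply Finset.sum_congr rfl
  intro k _
  rcases le_or_gt l k with h | hkl
  · rw [y.2 k l h]
    ring
  rcases le_or_gt j k with hk | hk
  · rw [mat_apply_of_lt _ (hk.trans_lt hkl), mat_apply_of_lt _ (hk.trans_lt hkl)]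
    ring
  rcases le_or_gt l i with hl | hl
  · rw [mat_apply_of_lt _ (hkl.trans_le hl), mat_apply_of_lt _ (hkl.trans_le hl)]
    ring
  rw [hw1 k hk, hw2 l hl]

lemma exists_conj_of_mem (i j : Fin n) (hij : i < j) (a : F) {μ : Module.Dual F (nn n F)}
    (h : μ ∈ orb (boxL i j a)) : ∃ w : UT n F, dact w w⁻¹ (boxL i j a) = μ := by
  obtain ⟨u, v, rfl⟩ := mem_orb.mp h
  exact exists_conj i j hij a u v

end

lemma CentralSystem.conv_char {G : Type} [Group G] [Fintype G] {ι : Type} [Fintype ι]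
    [DecidableEq ι] [DecidableEq G] {s : ι → G → ℂ} (hs : CentralSystem s) {χ : G → ℂ} {i : ι}
    (h : χ ∈ blk (s i)) (g : G) :
    ∑ b : G, χ b * s i (b⁻¹ * g) = (Nat.card G : ℂ) * χ g := by
  have hp := hs.pair_of_mem h
  obtain ⟨⟨V, _, _, _, ρ, hρ, rfl⟩, -⟩ := h
  obtain ⟨c, hc⟩ := exists_op_eq_smul ρ (hs.cl i)
  have h1 := trace_op ρ (s i)
  rw [hc, map_smul, LinearMap.trace_id, smul_eq_mul, hp, char_one] at h1
  have h2 : c = (Nat.card G : ℂ) := mul_right_cancel₀ (finrank_ne_zero ρ) h1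
  rw [h2] at hc
  have h3 : LinearMap.trace ℂ V (ρ g * op ρ (s i)) = (Nat.card G : ℂ) * ρ.character g := by
    rw [hc, mul_smul_comm, map_smul, smul_eq_mul]
    rfl
  rw [← h3, op, Finset.mul_sum, map_sum]
  rw [← Equiv.sum_comp ((Equiv.inv G).trans (Equiv.mulLeft g))
    (fun b => ρ.character b * s i (b⁻¹ * g))]
  apply Finset.sum_congr rfl
  intro b _
  simp only [Equiv.trans_apply, Equiv.inv_apply, Equiv.coe_mulLeft]
  rw [mul_smul_comm, map_smul, ← map_mul, smul_eq_mul, mul_comm]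
  congr 2
  group

section

variable {n : ℕ} {F : Type} [Field F] [Fintype F]

/-- If the orbit of `l` is one coadjoint orbit then its block is a single character. -/
lemma exists_smul_of_conj {θ : AddChar F ℂ} (hθ : θ ≠ 1) (l : Module.Dual F (nn n F))
    (hl : ∀ μ ∈ orb l, ∃ w : UT n F, dact w w⁻¹ l = μ) {χ : UT n F → ℂ}
    (hχ : χ ∈ blk (sfun θ (orb l))) : ∃ c : ℂ, χ = c • sfun θ (orb l) := by
  classical
  have hG : (Nat.card (UT n F) : ℂ) ≠ 0 := by
    exact_mod_cast Nat.card_pos.ne'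
  have h1 := fun g => (centralSystem (n := n) hθ).conv_char (i := ⟨orb l, l, rfl⟩) hχ g
  have h0 := fun b g => sfun_inv_mul (n := n) θ ⟨orb l, l, rfl⟩ b g
  simp only at h0 h1
  simp only [h0] at h1
  let hat : Module.Dual F (nn n F) → ℂ := fun μ => ∑ b : UT n F, χ b * θ (- μ (sub1 b))
  have h2 : ∀ w : UT n F, hat (dact w w⁻¹ l) = hat l := by
    intro w
    simp only [hat]
    rw [← Equiv.sum_comp (MulAut.conj w).toEquiv (fun b => χ b * θ (- l (sub1 b)))]
    apply Finset.sum_congr rfl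
    intro b _
    simp only [MulEquiv.toEquiv_eq_coe, EquivLike.coe_coe, MulAut.conj_apply]
    rw [class_of_mem hχ.1, dact_apply, sub1_conj]
  refine ⟨(Nat.card (UT n F) : ℂ)⁻¹ * hat l, ?_⟩
  ext g
  rw [Pi.smul_apply, smul_eq_mul, mul_assoc]
  rw [eq_inv_mul_iff_mul_eq₀ hG, ← h1 g, sfun_eq]
  simp only [Finset.mul_sum]
  rw [Finset.sum_comm]
  apply Finset.sum_congr rfl
  intro μ _
  by_cases hμ : μ ∈ orb l
  · obtain ⟨w, rfl⟩ := hl μ hμ
    simp only [hμ, if_true]
    rw [← h2 w]
    simp only [hat]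
    rw [Finset.sum_mul]
    apply Finset.sum_congr rfl
    intro b _
    ring
  · simp [hμ]

lemma blk_box {θ : AddChar F ℂ} (hθ : θ ≠ 1) (i j : Fin n) (hij : i < j) (a : F) :
    ∃ χ, blk (sfun θ (orb (boxL i j a))) = {χ} := by
  have hne := (centralSystem (n := n) hθ).blk_nonempty ⟨orb (boxL i j a), _, rfl⟩
  obtain ⟨χ, hχ⟩ := hne
  refine ⟨χ, ?_⟩
  ext ψ
  rw [Set.mem_singleton_iff]
  constructor
  · intro hψ
    obtain ⟨c, hc⟩ := exists_smul_of_conj hθ (boxL i j a)
      (fun μ hμ => exists_conj_of_mem i j hij a hμ) hχ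
    obtain ⟨d, hd⟩ := exists_smul_of_conj hθ (boxL i j a)
      (fun μ hμ => exists_conj_of_mem i j hij a hμ) hψ
    by_contra hcon
    have h1 := pair_of_ne hψ.1 hχ.1 hcon
    rw [hd, pair_smul_left] at h1
    rcases mul_eq_zero.mp h1 with h | h
    · rw [h, zero_smul] at hd
      have := char_one_ne_zero hψ.1
      rw [hd] at this
      exact this rfl
    · exact hχ.2 h
  · rintro rfl
    exact hχ

end

end Pool.Agent.Lib.MP_1f99fc_al
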