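import Mathlib
import Pool.Agent.Lib.MP_1f99fc_al.SingleBox

/-!
Normal forms for the two-sided orbits on `𝔫` and their separation by the single boxes.
-/

namespace Pool.Agent.Lib.MP_1f99fc_al

open Matrix

section

variable {n : ℕ} {F : Type} [Field F]

lemma single_mem_nn {i k : Fin n} (h : i < k) (c : F) : Matrix.single i k c ∈ nn n F := by
  intro p q hpq
  rw [Matrix.single_apply, if_neg]
  rintro ⟨rfl, rfl⟩
  exact absurd hpq (not_le.mpr h)

lemma row_op (y : nn n F) {i k : Fin n} (h : i < k) (c : F) :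
    ∃ z ∈ porb y, ∀ p q, (z : Matrix (Fin n) (Fin n) F) p q =
      (y : Matrix (Fin n) (Fin n) F) p q +
        if p = i then c * (y : Matrix (Fin n) (Fin n) F) k q else 0 := by
  obtain ⟨u, hu⟩ := exists_mat _ (single_mem_nn h c)
  refine ⟨bimul u y 1, ⟨u, 1, rfl⟩, ?_⟩
  intro p q
  rw [bimul_coe, mat_one, Matrix.mul_one, hu, Matrix.add_mul, Matrix.one_mul, Matrix.add_apply]
  congr 1
  split_ifs with hp
  · subst hp
    rw [Matrix.single_mul_apply_same]
  · rw [Matrix.single_mul_apply_of_ne _ _ _ _ _ hp]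

lemma col_op (y : nn n F) {l m : Fin n} (h : l < m) (c : F) :
    ∃ z ∈ porb y, ∀ p q, (z : Matrix (Fin n) (Fin n) F) p q =
      (y : Matrix (Fin n) (Fin n) F) p q +
        if q = m then (y : Matrix (Fin n) (Fin n) F) p l * c else 0 := by
  obtain ⟨v, hv⟩ := exists_mat _ (single_mem_nn h c)
  refine ⟨bimul 1 y v, ⟨1, v, rfl⟩, ?_⟩
  intro p q
  rw [bimul_coe, mat_one, Matrix.one_mul, hv, Matrix.mul_add, Matrix.mul_one, Matrix.add_apply]
  congr 1
  split_ifs with hq
  · subst hq
    rw [Matrix.mul_single_apply_same]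
  · rw [Matrix.mul_single_apply_of_ne _ _ _ _ _ hq]

/-- At most one nonzero entry in each row and in each column. -/
def IsRook (y : Matrix (Fin n) (Fin n) F) : Prop :=
  (∀ i l m, y i l ≠ 0 → y i m ≠ 0 → l = m) ∧ (∀ i k l, y i l ≠ 0 → y k l ≠ 0 → i = k)

open Classical in
/-- The support, in the order used for the minimization. -/
noncomputable def supp (y : Matrix (Fin n) (Fin n) F) : Finset (Fin n ×ₗ (Fin n)ᵒᵈ) :=
  Finset.univ.filter (fun p => y (ofLex p).1 (OrderDual.ofDual (ofLex p).2) ≠ 0)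

lemma supp_lt {y z : Matrix (Fin n) (Fin n) F} (i l : Fin n) (h1 : y i l ≠ 0) (h2 : z i l = 0)
    (h3 : ∀ p q, z p q ≠ 0 → y p q = 0 → p < i ∨ (p = i ∧ l < q)) :
    toColex (supp z) < toColex (supp y) := by
  rw [Finset.Colex.toColex_lt_toColex_iff_exists_forall_lt]
  refine ⟨toLex (i, OrderDual.toDual l), ?_, ?_, ?_⟩
  · simp [supp, h1]
  · simp [supp, h2]
  · intro b hb hb'
    simp only [supp, Finset.mem_filter, Finset.mem_univ, true_and, not_not] at hb hb'
    rw [Prod.Lex.lt_iff]
    rcases h3 _ _ hb hb' with h | ⟨h, h'⟩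
    · left
      exact h
    · right
      exact ⟨h, h'⟩

lemma porb_trans {x y z : nn n F} (h : y ∈ porb x) (h' : z ∈ porb y) : z ∈ porb x := by
  obtain ⟨u, v, rfl⟩ := h
  obtain ⟨u', v', rfl⟩ := h'
  exact ⟨_, _, bimul_bimul _ _ _ _ _⟩

lemma exists_rook (x : nn n F) : ∃ y ∈ porb x, IsRook (y : Matrix (Fin n) (Fin n) F) := by
  classical
  have hfin : Finite (Colex (Finset (Fin n ×ₗ (Fin n)ᵒᵈ))) :=
    Finite.of_injective (β := Finset (Fin n ×ₗ (Fin n)ᵒᵈ)) (fun x => ofColex x)
      (fun _ _ h => h)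
  have hwf : WellFounded (fun y z : nn n F =>
      toColex (supp (y : Matrix (Fin n) (Fin n) F)) < toColex (supp (z : Matrix (Fin n) (Fin n) F))) :=
    InvImage.wf (fun y : nn n F => toColex (supp (y : Matrix (Fin n) (Fin n) F))) wellFounded_lt
  obtain ⟨y, hy, hmin⟩ := hwf.has_min (porb x) ⟨x, 1, 1, (bimul_one x).symm⟩
  refine ⟨y, hy, ?_⟩
  generalize hY : (y : Matrix (Fin n) (Fin n) F) = Y at hmin ⊢
  -- rows
  have hrow : ∀ i l m, Y i l ≠ 0 → Y i m ≠ 0 → l = m := by
    by_contra hcon
    push Not at hcon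
    have hbad : (Finset.univ.filter (fun i : Fin n => ∃ l m, l < m ∧ Y i l ≠ 0 ∧ Y i m ≠ 0)).Nonempty := by
      obtain ⟨i, l, m, h1, h2, h3⟩ := hcon
      refine ⟨i, ?_⟩
      simp only [Finset.mem_filter, Finset.mem_univ, true_and]
      rcases lt_or_gt_of_ne h3 with h | h
      · exact ⟨l, m, h, h1, h2⟩
      · exact ⟨m, l, h, h2, h1⟩
    obtain ⟨i, hi, hmax⟩ := Finset.exists_max_image _ id hbad
    simp only [Finset.mem_filter, Finset.mem_univ, true_and, id] at hi hmax
    obtain ⟨l, m, hlm, h1, h2⟩ := hi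
    by_cases hk : ∃ k, i < k ∧ Y k l ≠ 0
    · obtain ⟨k, hik, hkl⟩ := hk
      obtain ⟨z, hz, hzz⟩ := row_op y hik (-(Y i l) / Y k l)
      rw [hY] at hzz
      apply hmin z (porb_trans hy hz)
      apply supp_lt i l h1
      · rw [hzz, if_pos rfl]
        field_simp
        ring
      · intro p q hp hq
        rw [hzz] at hp
        split_ifs at hp with hpi
        · right
          refine ⟨hpi, ?_⟩
          rw [hq, zero_add] at hp
          have hkq : Y k q ≠ 0 := fun h => hp (by rw [h, mul_zero])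
          by_contra hcon2
          have hne : q ≠ l := by
            rintro rfl
            rw [hpi] at hq
            exact h1 hq
          have hql : q < l := lt_of_le_of_ne (not_lt.mp hcon2) hne
          exact absurd (hmax k ⟨q, l, hql, hkq, hkl⟩) (not_le.mpr hik)
        · rw [add_zero] at hp
          exact absurd hq hp
    · push Not at hk
      obtain ⟨z, hz, hzz⟩ := col_op y hlm (-(Y i m) / Y i l)
      rw [hY] at hzz
      apply hmin z (porb_trans hy hz)
      apply supp_lt i m h2
      · rw [hzz, if_pos rfl]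
        field_simp
        ring
      · intro p q hp hq
        rw [hzz] at hp
        split_ifs at hp with hqm
        · left
          rw [hq, zero_add] at hp
          by_contra hcon2
          rcases eq_or_lt_of_le (not_lt.mp hcon2) with h | h
          · subst h
            subst hqm
            exact h2 hq
          · apply hp
            rw [hk p h, zero_mul]
        · rw [add_zero] at hp
          exact absurd hq hp
  refine ⟨hrow, ?_⟩
  by_contra hcon
  push Not at hcon
  have : ∃ i k l, i < k ∧ Y i l ≠ 0 ∧ Y k l ≠ 0 := by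
    obtain ⟨i, k, l, h1, h2, h3⟩ := hcon
    rcases lt_or_gt_of_ne h3 with h | h
    · exact ⟨i, k, l, h, h1, h2⟩
    · exact ⟨k, i, l, h, h2, h1⟩
  obtain ⟨i, k, l, hik, h1, h2⟩ := this
  obtain ⟨z, hz, hzz⟩ := row_op y hik (-(Y i l) / Y k l)
  rw [hY] at hzz
  apply hmin z (porb_trans hy hz)
  apply supp_lt i l h1
  · rw [hzz, if_pos rfl]
    field_simp
    ring
  · intro p q hp hq
    rw [hzz] at hp
    split_ifs at hp with hpi
    · exfalso
      rw [hq, zero_add] at hp
      have hkq : Y k q ≠ 0 := fun h => hp (by rw [h, mul_zero])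
      have : q = l := hrow k q l hkq h2
      subst this
      rw [hpi] at hq
      exact h1 hq
    · rw [add_zero] at hp
      exact absurd hq hp

end

end Pool.Agent.Lib.MP_1f99fc_al
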