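import Mathlib
import Pool.Agent.Lib.MP_1f99fc_al.Rook

/-!
The single-box sums separate the two-sided orbits on `𝔫`.
-/

namespace Pool.Agent.Lib.MP_1f99fc_al

open Matrix

section

variable {n : ℕ} {F : Type} [Field F] [Fintype F]

/-- The sum of `θ ∘ l` over `u x v`, for all `u, v ∈ U_n(F)`. -/
noncomputable def TT (θ : AddChar F ℂ) (l : Module.Dual F (nn n F)) (x : nn n F) : ℂ :=
  ∑ u : UT n F, ∑ v : UT n F, θ (l (bimul u x v))

lemma TT_bimul (θ : AddChar F ℂ) (l : Module.Dual F (nn n F)) (x : nn n F) (u₀ v₀ : UT n F) :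
    TT θ l (bimul u₀ x v₀) = TT θ l x := by
  unfold TT
  simp only [bimul_bimul]
  rw [← Equiv.sum_comp (Equiv.mulRight u₀) (fun u => ∑ v : UT n F, θ (l (bimul u x v)))]
  apply Finset.sum_congr rfl
  intro u _
  rw [← Equiv.sum_comp (Equiv.mulLeft v₀)
    (fun v => θ (l (bimul ((Equiv.mulRight u₀) u) x v)))]
  rfl

lemma TT_dact (θ : AddChar F ℂ) (l : Module.Dual F (nn n F)) (x : nn n F) (u₀ v₀ : UT n F) :
    TT θ (dact u₀ v₀ l) x = TT θ l x := by
  unfold TT
  simp only [dact_apply, bimul_bimul]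
  rw [← Equiv.sum_comp (Equiv.mulLeft u₀) (fun u => ∑ v : UT n F, θ (l (bimul u x v)))]
  apply Finset.sum_congr rfl
  intro u _
  rw [← Equiv.sum_comp (Equiv.mulRight v₀)
    (fun v => θ (l (bimul ((Equiv.mulLeft u₀) u) x v)))]
  rfl

open Classical in
lemma card_mul_sfun (θ : AddChar F ℂ) (l : Module.Dual F (nn n F)) (g : UT n F) :
    (Nat.card (UT n F) : ℂ) * (Nat.card (UT n F) : ℂ) * sfun θ (orb l) g =
      ((Finset.univ.filter (fun μ => μ ∈ orb l)).card : ℂ) * TT θ l (sub1 g) := by
  have h1 : ∀ u v : UT n F, sfun θ (orb l) g =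
      ∑ μ : Module.Dual F (nn n F), if μ ∈ orb l then θ (μ (bimul u (sub1 g) v)) else 0 := by
    intro u v
    rw [sfun_eq, ← sum_dact u v]
    apply Finset.sum_congr rfl
    intro μ _
    rw [dact_mem_orb_iff, dact_apply]
  have h2 : ∑ u : UT n F, ∑ v : UT n F, sfun θ (orb l) g =
      (Nat.card (UT n F) : ℂ) * (Nat.card (UT n F) : ℂ) * sfun θ (orb l) g := by
    simp only [Finset.sum_const, Finset.card_univ, nsmul_eq_mul, Nat.card_eq_fintype_card]
    ring
  rw [← h2]
  have h3 : ∑ u : UT n F, ∑ v : UT n F, sfun θ (orb l) g =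
      ∑ u : UT n F, ∑ v : UT n F, ∑ μ : Module.Dual F (nn n F),
        if μ ∈ orb l then θ (μ (bimul u (sub1 g) v)) else 0 := by
    apply Finset.sum_congr rfl
    intro u _
    apply Finset.sum_congr rfl
    intro v _
    exact h1 u v
  rw [h3]
  have h4 : ∑ u : UT n F, ∑ v : UT n F, ∑ μ : Module.Dual F (nn n F),
        (if μ ∈ orb l then θ (μ (bimul u (sub1 g) v)) else 0) =
      ∑ μ : Module.Dual F (nn n F), if μ ∈ orb l then TT θ l (sub1 g) else 0 := by
    have h5 : ∀ u : UT n F, ∑ v : UT n F, ∑ μ : Module.Dual F (nn n F),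
        (if μ ∈ orb l then θ (μ (bimul u (sub1 g) v)) else 0) =
        ∑ μ : Module.Dual F (nn n F), ∑ v : UT n F,
        (if μ ∈ orb l then θ (μ (bimul u (sub1 g) v)) else 0) := fun u => Finset.sum_comm
    simp only [h5]
    rw [Finset.sum_comm]
    apply Finset.sum_congr rfl
    intro μ _
    by_cases hμ : μ ∈ orb l
    · simp only [hμ, if_true]
      obtain ⟨u, v, rfl⟩ := mem_orb.mp hμ
      rw [← TT_dact θ l (sub1 g) u v]
      rfl
    · simp [hμ]
  rw [h4, ← Finset.sum_filter, Finset.sum_const, nsmul_eq_mul]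

lemma TT_eq_of_sfun_eq (θ : AddChar F ℂ) (l : Module.Dual F (nn n F)) (g h : UT n F)
    (he : sfun θ (orb l) g = sfun θ (orb l) h) : TT θ l (sub1 g) = TT θ l (sub1 h) := by
  classical
  have h1 := card_mul_sfun θ l g
  have h2 := card_mul_sfun θ l h
  rw [he, h2] at h1
  have h3 : ((Finset.univ.filter (fun μ => μ ∈ orb l)).card : ℂ) ≠ 0 := by
    have : (Finset.univ.filter (fun μ => μ ∈ orb l)).Nonempty :=
      ⟨l, by simp [self_mem_orb]⟩
    exact_mod_cast this.card_pos.ne'
  exact (mul_left_cancel₀ h3 h1).symm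

omit [Fintype F] in
/-- The functional `z ↦ a * (M z) i j`. -/
def colL (M : Matrix (Fin n) (Fin n) F) (i j : Fin n) (a : F) : Module.Dual F (nn n F) where
  toFun z := a * (M * (z : Matrix (Fin n) (Fin n) F)) i j
  map_add' y z := by
    rw [Submodule.coe_add, Matrix.mul_add, Matrix.add_apply, mul_add]
  map_smul' c y := by
    rw [Submodule.coe_smul, Matrix.mul_smul, Matrix.smul_apply, smul_eq_mul, RingHom.id_apply,
      smul_eq_mul]
    ring

omit [Fintype F] in
lemma colL_apply (M : Matrix (Fin n) (Fin n) F) (i j : Fin n) (a : F) (z : nn n F) :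
    colL M i j a z = a * (M * (z : Matrix (Fin n) (Fin n) F)) i j := rfl

omit [Fintype F] in
/-- `colL M i j a` only depends on the entries `M i l` for `l < j`. -/
lemma colL_congr {M N : Matrix (Fin n) (Fin n) F} {i j : Fin n} (a : F)
    (h : ∀ l, l < j → M i l = N i l) : colL M i j a = colL N i j a := by
  ext z
  rw [colL_apply, colL_apply, Matrix.mul_apply, Matrix.mul_apply]
  congr 1
  apply Finset.sum_congr rfl
  intro l _
  rcases lt_or_ge l j with hl | hl
  · rw [h l hl]
  · rw [z.2 l j hl, mul_zero, mul_zero]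

lemma TT_box (θ : AddChar F ℂ) (i j : Fin n) (a : F) (x : nn n F) :
    TT θ (boxL i j a) x =
      ∑ u : UT n F, θ (a * (mat u * (x : Matrix (Fin n) (Fin n) F)) i j) *
        ∑ z : nn n F, θ (colL (mat u * (x : Matrix (Fin n) (Fin n) F)) i j a z) := by
  unfold TT
  apply Finset.sum_congr rfl
  intro u _
  rw [← sum_sub1, Finset.mul_sum]
  apply Finset.sum_congr rfl
  intro v _
  rw [← AddChar.map_add_eq_mul, boxL_apply, colL_apply, bimul_coe, sub1_coe, ← mul_add,
    Matrix.mul_sub, Matrix.mul_one, Matrix.sub_apply, add_sub_cancel]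

omit [Fintype F] in
lemma mul_apply_congr (u : UT n F) {x y : Matrix (Fin n) (Fin n) F} {i l : Fin n}
    (h : ∀ k, i ≤ k → x k l = y k l) : (mat u * x) i l = (mat u * y) i l := by
  rw [Matrix.mul_apply, Matrix.mul_apply]
  apply Finset.sum_congr rfl
  intro k _
  rcases lt_or_ge k i with hk | hk
  · rw [mat_apply_of_lt u hk, zero_mul, zero_mul]
  · rw [h k hk]

omit [Fintype F] in
lemma mul_apply_top (u : UT n F) {x : Matrix (Fin n) (Fin n) F} {i l : Fin n}
    (h : ∀ k, i < k → x k l = 0) : (mat u * x) i l = x i l := by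
  rw [Matrix.mul_apply, Finset.sum_eq_single i]
  · rw [mat_apply_self, one_mul]
  · intro k _ hk
    rcases lt_or_gt_of_ne hk with hk | hk
    · rw [mat_apply_of_lt u hk, zero_mul]
    · rw [h k hk, mul_zero]
  · intro h
    exact absurd (Finset.mem_univ _) h

lemma sep_step {θ : AddChar F ℂ} (hθ : θ ≠ 1) {x y : nn n F} {i j : Fin n} (a : F)
    (h1 : ∀ l, l < j → (x : Matrix (Fin n) (Fin n) F) i l = 0)
    (h2 : ∀ k, i < k → (x : Matrix (Fin n) (Fin n) F) k j = 0)
    (h3 : ∀ k, i < k → (y : Matrix (Fin n) (Fin n) F) k j = 0)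
    (h4 : ∀ k l, i ≤ k → l < j →
      (x : Matrix (Fin n) (Fin n) F) k l = (y : Matrix (Fin n) (Fin n) F) k l)
    (hT : TT θ (boxL i j a) x = TT θ (boxL i j a) y) :
    θ (a * (x : Matrix (Fin n) (Fin n) F) i j) = θ (a * (y : Matrix (Fin n) (Fin n) F) i j) := by
  classical
  rw [TT_box, TT_box] at hT
  have e1 : ∀ u : UT n F, (mat u * (x : Matrix (Fin n) (Fin n) F)) i j =
      (x : Matrix (Fin n) (Fin n) F) i j := fun u => mul_apply_top u h2
  have e2 : ∀ u : UT n F, (mat u * (y : Matrix (Fin n) (Fin n) F)) i j =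
      (y : Matrix (Fin n) (Fin n) F) i j := fun u => mul_apply_top u h3
  have e3 : ∀ u : UT n F, colL (mat u * (y : Matrix (Fin n) (Fin n) F)) i j a =
      colL (mat u * (x : Matrix (Fin n) (Fin n) F)) i j a := by
    intro u
    apply colL_congr
    intro l hl
    exact mul_apply_congr u (fun k hk => (h4 k l hk hl).symm)
  simp only [e1, e2, e3] at hT
  rw [← Finset.mul_sum, ← Finset.mul_sum] at hT
  refine mul_right_cancel₀ ?_ hT
  simp only [sum_theta_of_hom hθ]
  rw [← Finset.sum_filter, Finset.sum_const, nsmul_eq_mul]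
  apply mul_ne_zero
  · have : (Finset.univ.filter (fun u : UT n F =>
        colL (mat u * (x : Matrix (Fin n) (Fin n) F)) i j a = 0)).Nonempty := by
      refine ⟨1, ?_⟩
      rw [Finset.mem_filter]
      refine ⟨Finset.mem_univ _, ?_⟩
      have h5 : colL (mat 1 * (x : Matrix (Fin n) (Fin n) F)) i j a = colL 0 i j a := by
        apply colL_congr
        intro l hl
        rw [mat_one, Matrix.one_mul, h1 l hl]
        rfl
      rw [h5]
      ext z
      rw [colL_apply, Matrix.zero_mul]
      simp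
    exact_mod_cast this.card_pos.ne'
  · exact_mod_cast Nat.card_pos.ne'

lemma eq_of_theta {θ : AddChar F ℂ} (hθ : θ ≠ 1) {s t : F}
    (h : ∀ a : F, a ≠ 0 → θ (a * s) = θ (a * t)) : s = t := by
  by_contra hne
  obtain ⟨b, hb⟩ := exists_ne_one hθ
  have hst : s - t ≠ 0 := sub_ne_zero.mpr hne
  have hb0 : b ≠ 0 := by
    rintro rfl
    exact hb (AddChar.map_zero_eq_one θ)
  have h1 := h (b / (s - t)) (div_ne_zero hb0 hst)
  apply hb
  have h2 : b = b / (s - t) * s - b / (s - t) * t := by
    field_simp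
  rw [h2, sub_eq_add_neg, AddChar.map_add_eq_mul, h1, ← AddChar.map_add_eq_mul, add_neg_cancel,
    AddChar.map_zero_eq_one]

/-- Two normal forms with the same single-box sums are equal. -/
lemma rook_ext {θ : AddChar F ℂ} (hθ : θ ≠ 1) {x y : nn n F}
    (hx : IsRook (x : Matrix (Fin n) (Fin n) F)) (hy : IsRook (y : Matrix (Fin n) (Fin n) F))
    (hT : ∀ i j : Fin n, i < j → ∀ a : F, a ≠ 0 →
      TT θ (boxL i j a) x = TT θ (boxL i j a) y) : x = y := by
  have key : ∀ d : ℕ, ∀ i j : Fin n, i < j → (j : ℕ) - i = d →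
      (x : Matrix (Fin n) (Fin n) F) i j = (y : Matrix (Fin n) (Fin n) F) i j := by
    intro d
    induction d using Nat.strong_induction_on with
    | _ d ih =>
      intro i j hij hd
      have ih' : ∀ k l : Fin n, i ≤ k → l ≤ j → (k ≠ i ∨ l ≠ j) →
          (x : Matrix (Fin n) (Fin n) F) k l = (y : Matrix (Fin n) (Fin n) F) k l := by
        intro k l hk hl hne
        rcases le_or_gt l k with h | h
        · rw [x.2 k l h, y.2 k l h]
        · apply ih ((l : ℕ) - k) _ k l h rfl
          have hk' : (i : ℕ) ≤ k := hk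
          have hl' : (l : ℕ) ≤ j := hl
          have h' : (k : ℕ) < l := h
          have hij' : (i : ℕ) < j := hij
          rcases hne with h1 | h1
          · have : (k : ℕ) ≠ i := fun h => h1 (Fin.ext h)
            omega
          · have : (l : ℕ) ≠ j := fun h => h1 (Fin.ext h)
            omega
      by_cases hc1 : ∃ l, l < j ∧ (x : Matrix (Fin n) (Fin n) F) i l ≠ 0
      · obtain ⟨l, hl, hl'⟩ := hc1
        have hl'' : (y : Matrix (Fin n) (Fin n) F) i l ≠ 0 := by
          rw [← ih' i l le_rfl hl.le (Or.inr hl.ne)]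
          exact hl'
        have e1 : (x : Matrix (Fin n) (Fin n) F) i j = 0 := by
          by_contra hcon
          exact hl.ne (hx.1 i l j hl' hcon)
        have e2 : (y : Matrix (Fin n) (Fin n) F) i j = 0 := by
          by_contra hcon
          exact hl.ne (hy.1 i l j hl'' hcon)
        rw [e1, e2]
      by_cases hc2 : ∃ k, i < k ∧ (x : Matrix (Fin n) (Fin n) F) k j ≠ 0
      · obtain ⟨k, hk, hk'⟩ := hc2
        have hk'' : (y : Matrix (Fin n) (Fin n) F) k j ≠ 0 := by
          rw [← ih' k j hk.le le_rfl (Or.inl hk.ne')]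
          exact hk'
        have e1 : (x : Matrix (Fin n) (Fin n) F) i j = 0 := by
          by_contra hcon
          exact hk.ne (hx.2 i k j hcon hk')
        have e2 : (y : Matrix (Fin n) (Fin n) F) i j = 0 := by
          by_contra hcon
          exact hk.ne (hy.2 i k j hcon hk'')
        rw [e1, e2]
      push Not at hc1 hc2
      apply eq_of_theta hθ
      intro a ha
      apply sep_step hθ a hc1 hc2
      · intro k hk
        rw [← ih' k j hk.le le_rfl (Or.inl hk.ne')]
        exact hc2 k hk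
      · intro k l hk hl
        exact ih' k l hk hl.le (Or.inr hl.ne)
      · exact hT i j hij a ha
  apply Subtype.ext
  ext i j
  rcases le_or_gt j i with h | h
  · rw [x.2 i j h, y.2 i j h]
  · exact key _ i j h rfl

/-- The single-box sums determine the superclass. -/
lemma mem_scl_of_sfun_eq {θ : AddChar F ℂ} (hθ : θ ≠ 1) {g h : UT n F}
    (he : ∀ i j : Fin n, i < j → ∀ a : F, a ≠ 0 →
      sfun θ (orb (boxL i j a)) g = sfun θ (orb (boxL i j a)) h) : h ∈ scl g := by
  obtain ⟨x, ⟨u, v, hx⟩, hxr⟩ := exists_rook (sub1 g)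
  obtain ⟨y, ⟨u', v', hy⟩, hyr⟩ := exists_rook (sub1 h)
  have hxy : x = y := by
    apply rook_ext hθ hxr hyr
    intro i j hij a ha
    rw [hx, hy, TT_bimul, TT_bimul]
    exact TT_eq_of_sfun_eq θ _ g h (he i j hij a ha)
  rw [hx, hy] at hxy
  refine ⟨u'⁻¹ * u, v * v'⁻¹, ?_⟩
  rw [← bimul_bimul, hxy, bimul_bimul]
  simp

end

end Pool.Agent.Lib.MP_1f99fc_al
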