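import Mathlib
import Pool.Agent.Lib.MP_1f99fc_al.Separation

/-!
In a supercharacter theory the functions constant on the superclasses are the combinations of
supercharacters.
-/

namespace Pool.Agent.Lib.MP_1f99fc_al

section

variable {G : Type} [Group G] [Fintype G]

open Classical in
lemma pair_sigma {X : Set (G → ℂ)} (hX : X ⊆ Irr G) {ψ : G → ℂ} (hψ : ψ ∈ Irr G) :
    pair (sigma X) ψ = if ψ ∈ X then (Nat.card G : ℂ) * ψ 1 else 0 := by
  have hfin : X.Finite := finite_irr.subset hX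
  have h1 : sigma X = ∑ χ ∈ hfin.toFinset, χ 1 • χ := by
    ext g
    rw [sigma_eq_sum hfin, Finset.sum_apply]
    rfl
  rw [h1, pair_sum_left]
  split_ifs with h
  · rw [Finset.sum_eq_single ψ]
    · rw [pair_smul_left, pair_self_of_mem hψ]
      ring
    · intro χ hχ hne
      rw [pair_smul_left, pair_of_ne (hX (hfin.mem_toFinset.mp hχ)) hψ hne, mul_zero]
    · intro h'
      exact absurd (hfin.mem_toFinset.mpr h) h'
  · apply Finset.sum_eq_zero
    intro χ hχ
    have hne : χ ≠ ψ := by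
      rintro rfl
      exact h (hfin.mem_toFinset.mp hχ)
    rw [pair_smul_left, pair_of_ne (hX (hfin.mem_toFinset.mp hχ)) hψ hne, mul_zero]

variable {𝒳 : Set (Set (G → ℂ))} {𝒦 : Set (Set G)}

lemma IsSupercharacterTheory.finite_left (h : IsSupercharacterTheory 𝒳 𝒦) : 𝒳.Finite :=
  (finite_irr (G := G)).finite_subsets.subset fun X hX => (h.nonempty_subset X hX).2

/-- A function constant on the superclasses is a combination of supercharacters. -/
lemma IsSupercharacterTheory.exists_coeff (h : IsSupercharacterTheory 𝒳 𝒦) {t : G → ℂ}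
    (ht : ∀ K ∈ 𝒦, ∀ g ∈ K, ∀ k ∈ K, t g = t k) :
    ∃ d : Set (G → ℂ) → ℂ, ∀ X ∈ 𝒳, ∀ ψ ∈ X, pair t ψ = d X * ((Nat.card G : ℂ) * ψ 1) := by
  classical
  have hG : (Nat.card G : ℂ) ≠ 0 := by
    exact_mod_cast Nat.card_pos.ne'
  have : Fintype 𝒳 := h.finite_left.fintype
  have : Fintype 𝒦 := Fintype.ofFinite _
  choose rep hrep using fun K : 𝒦 => h.nonempty_class K.1 K.2
  -- expansion of the pairing
  have hpair : ∀ (d : 𝒳 → ℂ) (X : 𝒳) (ψ : G → ℂ), ψ ∈ X.1 →
      pair (∑ Y : 𝒳, d Y • sigma Y.1) ψ = d X * ((Nat.card G : ℂ) * ψ 1) := by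
    intro d X ψ hψ
    have hψI : ψ ∈ Irr G := (h.nonempty_subset X.1 X.2).2 hψ
    rw [pair_sum_left, Finset.sum_eq_single X]
    · rw [pair_smul_left, pair_sigma (h.nonempty_subset X.1 X.2).2 hψI, if_pos hψ]
    · intro Y _ hY
      rw [pair_smul_left, pair_sigma (h.nonempty_subset Y.1 Y.2).2 hψI, if_neg, mul_zero]
      intro hψY
      apply hY
      apply Subtype.ext
      exact (h.existsUnique_char ψ hψI).unique ⟨Y.2, hψY⟩ ⟨X.2, hψ⟩
    · intro h'
      exact absurd (Finset.mem_univ _) h'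
  -- constancy
  have hconst : ∀ (d : 𝒳 → ℂ) (K : 𝒦) (g : G), g ∈ K.1 →
      (∑ Y : 𝒳, d Y • sigma Y.1) g = (∑ Y : 𝒳, d Y • sigma Y.1) (rep K) := by
    intro d K g hg
    rw [Finset.sum_apply, Finset.sum_apply]
    apply Finset.sum_congr rfl
    intro Y _
    rw [Pi.smul_apply, Pi.smul_apply, h.constant Y.1 Y.2 K.1 K.2 g hg _ (hrep K)]
  let Ψ : (𝒳 → ℂ) →ₗ[ℂ] (𝒦 → ℂ) :=
    { toFun := fun d K => (∑ Y : 𝒳, d Y • sigma Y.1) (rep K)
      map_add' := by
        intro d e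
        ext K
        simp only [Finset.sum_apply, Pi.smul_apply, Pi.add_apply, add_smul,
          Finset.sum_add_distrib]
      map_smul' := by
        intro c d
        ext K
        simp only [Finset.sum_apply, Pi.smul_apply, RingHom.id_apply, smul_eq_mul,
          Finset.mul_sum, mul_assoc] }
  have hinj : Function.Injective Ψ := by
    rw [injective_iff_map_eq_zero]
    intro d hd
    have h0 : (∑ Y : 𝒳, d Y • sigma Y.1) = 0 := by
      ext g
      obtain ⟨K, ⟨hK, hgK⟩, -⟩ := h.existsUnique_class g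
      rw [hconst d ⟨K, hK⟩ g hgK]
      exact congrFun hd ⟨K, hK⟩
    ext X
    obtain ⟨ψ, hψ⟩ := (h.nonempty_subset X.1 X.2).1
    have h1 := hpair d X ψ hψ
    rw [h0] at h1
    have h2 : pair (0 : G → ℂ) ψ = 0 := by simp [pair]
    rw [h2] at h1
    exact (mul_eq_zero.mp h1.symm).resolve_right
      (mul_ne_zero hG (char_one_ne_zero ((h.nonempty_subset X.1 X.2).2 hψ)))
  have hrank : Module.finrank ℂ (𝒳 → ℂ) = Module.finrank ℂ (𝒦 → ℂ) := by
    rw [Module.finrank_fintype_fun_eq_card, Module.finrank_fintype_fun_eq_card,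
      ← Nat.card_eq_fintype_card, ← Nat.card_eq_fintype_card]
    exact h.ncard_eq
  have hsurj : Function.Surjective Ψ :=
    (LinearMap.injective_iff_surjective_of_finrank_eq_finrank hrank).mp hinj
  obtain ⟨d, hd⟩ := hsurj (fun K => t (rep K))
  have ht' : (∑ Y : 𝒳, d Y • sigma Y.1) = t := by
    ext g
    obtain ⟨K, ⟨hK, hgK⟩, -⟩ := h.existsUnique_class g
    rw [hconst d ⟨K, hK⟩ g hgK, ht K hK g hgK (rep ⟨K, hK⟩) (hrep ⟨K, hK⟩)]
    exact congrFun hd ⟨K, hK⟩
  refine ⟨fun X => if hX : X ∈ 𝒳 then d ⟨X, hX⟩ else 0, ?_⟩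
  intro X hX ψ hψ
  rw [← ht', hpair d ⟨X, hX⟩ ψ hψ]
  simp only [dif_pos hX]

/-- If `t` is constant on the superclasses then its set of constituents is a union of blocks. -/
lemma IsSupercharacterTheory.subset_blk (h : IsSupercharacterTheory 𝒳 𝒦) {t : G → ℂ}
    (ht : ∀ K ∈ 𝒦, ∀ g ∈ K, ∀ k ∈ K, t g = t k) {X : Set (G → ℂ)} (hX : X ∈ 𝒳)
    {ψ : G → ℂ} (hψ : ψ ∈ X) (hψ' : ψ ∈ blk t) : X ⊆ blk t := by
  have hG : (Nat.card G : ℂ) ≠ 0 := by
    exact_mod_cast Nat.card_pos.ne'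
  obtain ⟨d, hd⟩ := h.exists_coeff ht
  intro χ hχ
  have hχI := (h.nonempty_subset X hX).2 hχ
  refine ⟨hχI, ?_⟩
  rw [hd X hX χ hχ]
  have h1 := hψ'.2
  rw [hd X hX ψ hψ] at h1
  have h2 : d X ≠ 0 := fun h => h1 (by rw [h, zero_mul])
  exact mul_ne_zero h2 (mul_ne_zero hG (char_one_ne_zero hχI))

end

end Pool.Agent.Lib.MP_1f99fc_al
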